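import Pool.Agent.H52.GP.InM
import Pool.Agent.H17.Omega.CtmD

/-!
# MP_66e4cf_lc: the partial orders `P_ξ` as sets, definable sets of conditions
-/

set_option autoImplicit false
set_option linter.unusedVariables false
set_option linter.unusedSectionVars false
set_option linter.unusedSimpArgs false
set_option linter.unreachableTactic false
set_option linter.unusedTactic false

universe u

open Pool.Agent.H17.Omega Pool.Agent.H17.Omega.CTM Pool.Agent.H52.GX Pool.Agent.H52.GC Pool.Agent.H83.GP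

namespace Pool.Agent.H52.GP

variable {M : Set ZFSet.{u}}

/-- `m` is the stem of the condition `z` at `η` -/
def StC (z η m : M) : Prop := (∃ d a : M, ZFSet.pair η.1 d.1 ∈ z.1 ∧ d.1 = ZFSet.pair m.1 a.1) ∨
  (m.1 = ∅ ∧ ∀ d : M, ¬ ZFSet.pair η.1 d.1 ∈ z.1)

/-- `a` is the set of names of the condition `z` at `η` -/
def NaC (z η a : M) : Prop := (∃ d m : M, ZFSet.pair η.1 d.1 ∈ z.1 ∧ d.1 = ZFSet.pair m.1 a.1) ∨
  (a.1 = ∅ ∧ ∀ d : M, ¬ ZFSet.pair η.1 d.1 ∈ z.1)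

theorem StC.dfn (hM : CTM M) : hM.Dfn (fun v : Fin 3 → M => StC (v 0) (v 1) (v 2)) := by
  unfold StC
  (repeat' first
      | exact DT.var _ | exact DT.last | exact DT.const _ | assumption
      | refine Dfn.pairMem ?_ ?_ ?_ | refine Dfn.isPair ?_ ?_ ?_ | refine Dfn.mem ?_ ?_
      | refine Dfn.eqv ?_ ?_ | refine Dfn.eq ?_ ?_ | refine Dfn.subset ?_ ?_
      | refine Dfn.isEmpty ?_ | refine Dfn.isTrans ?_ | refine Dfn.isOrd ?_ | refine Dfn.isNat ?_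
      | refine Dfn.and ?_ ?_ | refine Dfn.or ?_ ?_ | refine Dfn.iff ?_ ?_ | refine Dfn.not ?_
      | refine Dfn.imp ?_ ?_ | refine Dfn.all ?_ | refine Dfn.ex ?_ | exact Dfn.false')

theorem NaC.dfn (hM : CTM M) : hM.Dfn (fun v : Fin 3 → M => NaC (v 0) (v 1) (v 2)) := by
  unfold NaC
  (repeat' first
      | exact DT.var _ | exact DT.last | exact DT.const _ | assumption
      | refine Dfn.pairMem ?_ ?_ ?_ | refine Dfn.isPair ?_ ?_ ?_ | refine Dfn.mem ?_ ?_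
      | refine Dfn.eqv ?_ ?_ | refine Dfn.eq ?_ ?_ | refine Dfn.subset ?_ ?_
      | refine Dfn.isEmpty ?_ | refine Dfn.isTrans ?_ | refine Dfn.isOrd ?_ | refine Dfn.isNat ?_
      | refine Dfn.and ?_ ?_ | refine Dfn.or ?_ ?_ | refine Dfn.iff ?_ ?_ | refine Dfn.not ?_
      | refine Dfn.imp ?_ ?_ | refine Dfn.all ?_ | refine Dfn.ex ?_ | exact Dfn.false')

theorem pair_mem_cd' (hM : CTM M) {p : Cn.{u}} {ξ : Ordinal.{u}} (h : p.f ξ ≠ (0, ∅)) (hp : cd p ∈ M) :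
    ZFSet.pair (natZ (p.f ξ).1) (fs (p.f ξ).2) ∈ M :=
  (hM.of_pair_mem (hM.mem_of_mem hp (pair_mem_cd.2 ⟨h, rfl⟩))).2

theorem stC_iff (hM : CTM M) {z η m : M} {p : Cn.{u}} {ξ : Ordinal.{u}} (hz : z.1 = cd p)
    (hη : η.1 = ξ.toZFSet) : StC z η m ↔ m.1 = natZ (p.f ξ).1 := by
  have hp : cd p ∈ M := by rw [← hz]; exact z.2
  by_cases h0 : p.f ξ = (0, ∅)
  · constructor
    · rintro (⟨d, a, h1, _⟩ | ⟨h1, _⟩)
      · rw [hz, hη] at h1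
        exact ((pair_mem_cd.1 h1).1 h0).elim
      · rw [h0]; exact h1
    · intro h1
      rw [h0] at h1
      refine Or.inr ⟨h1, fun d h2 => ?_⟩
      rw [hz, hη] at h2
      exact (pair_mem_cd.1 h2).1 h0
  · have m1 := pair_mem_cd' hM h0 hp
    have m2 := hM.of_pair_mem m1
    constructor
    · rintro (⟨d, a, h1, h2⟩ | ⟨h1, h2⟩)
      · rw [hz, hη] at h1
        have h3 := (pair_mem_cd.1 h1).2
        rw [h2, ZFSet.pair_inj] at h3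
        exact h3.1
      · exfalso
        refine h2 ⟨_, m1⟩ ?_
        rw [hz, hη]; exact pair_mem_cd.2 ⟨h0, rfl⟩
    · intro h1
      refine Or.inl ⟨⟨_, m1⟩, ⟨_, m2.2⟩, ?_, ?_⟩
      · rw [hz, hη]; exact pair_mem_cd.2 ⟨h0, rfl⟩
      · rw [h1]

theorem naC_iff (hM : CTM M) {z η a : M} {p : Cn.{u}} {ξ : Ordinal.{u}} (hz : z.1 = cd p)
    (hη : η.1 = ξ.toZFSet) : NaC z η a ↔ a.1 = fs (p.f ξ).2 := by
  have hp : cd p ∈ M := by rw [← hz]; exact z.2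
  by_cases h0 : p.f ξ = (0, ∅)
  · have h00 : fs (p.f ξ).2 = ∅ := by rw [h0]; exact fs_empty
    rw [h00]
    constructor
    · rintro (⟨d, a, h1, _⟩ | ⟨h1, _⟩)
      · rw [hz, hη] at h1
        exact ((pair_mem_cd.1 h1).1 h0).elim
      · exact h1
    · intro h1
      refine Or.inr ⟨h1, fun d h2 => ?_⟩
      rw [hz, hη] at h2
      exact (pair_mem_cd.1 h2).1 h0
  · have m1 := pair_mem_cd' hM h0 hp
    have m2 := hM.of_pair_mem m1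
    constructor
    · rintro (⟨d, m, h1, h2⟩ | ⟨h1, h2⟩)
      · rw [hz, hη] at h1
        have h3 := (pair_mem_cd.1 h1).2
        rw [h2, ZFSet.pair_inj] at h3
        exact h3.2
      · exfalso
        refine h2 ⟨_, m1⟩ ?_
        rw [hz, hη]; exact pair_mem_cd.2 ⟨h0, rfl⟩
    · intro h1
      refine Or.inl ⟨⟨_, m1⟩, ⟨_, m2.1⟩, ?_, ?_⟩
      · rw [hz, hη]; exact pair_mem_cd.2 ⟨h0, rfl⟩
      · rw [h1]

/-! ### The sets `P_ξ` and their orders -/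

open Classical in
/-- the set of the codes of the conditions of length `ξ` -/
noncomputable def PZ (t : Tm) (M : Set ZFSet.{u}) (ξ : Ordinal.{u}) : ZFSet.{u} :=
  if h : ∃ S ∈ M, IsCode S (SS t M ξ) then h.choose else ∅

theorem isCode_PZ (hM : CTM M) {t : Tm} (ht : t.Ax) (hk : t.In M) {ξ : Ordinal.{u}} (hξ : ξ.toZFSet ∈ M) :
    PZ t M ξ ∈ M ∧ IsCode (PZ t M ξ) (SS t M ξ) := by
  obtain ⟨F, hF, hF'⟩ := exists_PF hM ht hk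
  have h : ∃ S ∈ M, IsCode S (SS t M ξ) := ⟨_, (F ⟨_, hξ⟩).2, hF' ξ ⟨_, hξ⟩ rfl⟩
  rw [PZ, dif_pos h]
  exact h.choose_spec

theorem IsCode.unique {S S' : ZFSet.{u}} {SC : Set Cn.{u}} (h : IsCode S SC) (h' : IsCode S' SC) : S = S' :=
  ZFSet.ext fun z => (h z).trans (h' z).symm

/-- `ξ ↦ P_ξ` is definable. -/
theorem exists_PZF (hM : CTM M) {t : Tm} (ht : t.Ax) (hk : t.In M) : ∃ F : M → M,
    hM.Dfn (fun v : Fin 2 → M => F (v 0) = v 1) ∧ ∀ ξ : Ordinal.{u}, ∀ x : M, x.1 = ξ.toZFSet →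
      (F x).1 = PZ t M ξ := by
  obtain ⟨F, hF, hF'⟩ := exists_PF hM ht hk
  refine ⟨F, hF, fun ξ x hx => (hF' ξ x hx).unique ?_⟩
  exact (isCode_PZ hM ht hk (by rw [← hx]; exact x.2)).2

open Classical in
/-- the order of `P_ξ` -/
noncomputable def RZ (t : Tm) (M : Set ZFSet.{u}) (ξ : Ordinal.{u}) : ZFSet.{u} :=
  ZFSet.sep (fun z => ∃ p ∈ SS t M ξ, ∃ q ∈ SS t M ξ, p.Le t q ∧ z = ZFSet.pair (cd p) (cd q))
    (ZFSet.prod (PZ t M ξ) (PZ t M ξ))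

section

variable (hM : CTM M) {t : Tm} (ht : t.Ax) (hk : t.In M) {ξ : Ordinal.{u}} (hξ : ξ.toZFSet ∈ M)

include hM ht hk hξ

theorem PZ_mem : PZ t M ξ ∈ M := (isCode_PZ hM ht hk hξ).1

theorem mem_PZ {z : ZFSet.{u}} : z ∈ PZ t M ξ ↔ ∃ p ∈ SS t M ξ, z = cd p := (isCode_PZ hM ht hk hξ).2 z

theorem cd_mem_PZ {p : Cn.{u}} : cd p ∈ PZ t M ξ ↔ p ∈ SS t M ξ := (isCode_PZ hM ht hk hξ).2.mem_iff

theorem cd_mem_M {p : Cn.{u}} (hp : p ∈ SS t M ξ) : cd p ∈ M :=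
  hM.mem_of_mem (PZ_mem hM ht hk hξ) ((cd_mem_PZ hM ht hk hξ).2 hp)

theorem mem_RZ {z : ZFSet.{u}} : z ∈ RZ t M ξ ↔ ∃ p ∈ SS t M ξ, ∃ q ∈ SS t M ξ, p.Le t q ∧
    z = ZFSet.pair (cd p) (cd q) := by
  rw [RZ, ZFSet.mem_sep]
  constructor
  · exact fun h => h.2
  · rintro ⟨p, hp, q, hq, h1, rfl⟩
    refine ⟨?_, p, hp, q, hq, h1, rfl⟩
    rw [ZFSet.pair_mem_prod]
    exact ⟨(cd_mem_PZ hM ht hk hξ).2 hp, (cd_mem_PZ hM ht hk hξ).2 hq⟩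

theorem pair_mem_RZ {p q : Cn.{u}} : ZFSet.pair (cd p) (cd q) ∈ RZ t M ξ ↔
    p ∈ SS t M ξ ∧ q ∈ SS t M ξ ∧ p.Le t q := by
  rw [mem_RZ hM ht hk hξ]
  constructor
  · rintro ⟨p', hp, q', hq, h1, h2⟩
    rw [ZFSet.pair_inj] at h2
    rw [cd_inj h2.1, cd_inj h2.2]
    exact ⟨hp, hq, h1⟩
  · rintro ⟨hp, hq, h1⟩; exact ⟨p, hp, q, hq, h1, rfl⟩

theorem RZ_mem : RZ t M ξ ∈ M := by
  have hL := LeC.dfn hM
  obtain ⟨b, hb, hb'⟩ := hM.exists_sep (P := fun z => ∃ x y : M, z.1 = ZFSet.pair x.1 y.1 ∧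
    LeC ⟨_, r2z_mem hM hk.le⟩ x y) (Dfn.ex (Dfn.ex (Dfn.and (Dfn.isPair (DT.var _) (DT.var _) (DT.var _))
      (Dfn.subst3 hL (DT.const _) (DT.var _) (DT.var _)))))
    (hM.prod_mem (PZ_mem hM ht hk hξ) (PZ_mem hM ht hk hξ))
  have : RZ t M ξ = b := by
    ext z
    rw [mem_RZ hM ht hk hξ, hb']
    constructor
    · rintro ⟨p, hp, q, hq, h1, rfl⟩
      have mp := cd_mem_M hM ht hk hξ hp
      have mq := cd_mem_M hM ht hk hξ hq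
      refine ⟨?_, hM.pair_mem mp mq, ⟨_, mp⟩, ⟨_, mq⟩, rfl, (leC_iff hM ht rfl rfl rfl).2 h1⟩
      rw [ZFSet.pair_mem_prod]
      exact ⟨(cd_mem_PZ hM ht hk hξ).2 hp, (cd_mem_PZ hM ht hk hξ).2 hq⟩
    · rintro ⟨h1, _, x, y, rfl, h2⟩
      rw [ZFSet.pair_mem_prod] at h1
      obtain ⟨p, hp, hpx⟩ := (mem_PZ hM ht hk hξ).1 h1.1
      obtain ⟨q, hq, hqy⟩ := (mem_PZ hM ht hk hξ).1 h1.2
      exact ⟨p, hp, q, hq, (leC_iff hM ht rfl hpx hqy).1 h2, by rw [hpx, hqy]⟩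
  rw [this]; exact hb

theorem po_PZ : PO (PZ t M ξ) (RZ t M ξ) where
  rel := by
    intro z hz
    obtain ⟨p, hp, q, hq, h1, rfl⟩ := (mem_RZ hM ht hk hξ).1 hz
    exact ⟨_, (cd_mem_PZ hM ht hk hξ).2 hp, _, (cd_mem_PZ hM ht hk hξ).2 hq, rfl⟩
  refl := by
    intro a ha
    obtain ⟨p, hp, rfl⟩ := (mem_PZ hM ht hk hξ).1 ha
    exact (pair_mem_RZ hM ht hk hξ).2 ⟨hp, hp, Cn.Le.refl ht p⟩
  trans := by
    intro a b d h1 h2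
    obtain ⟨p, hp, q, hq, h3, h4⟩ := (mem_RZ hM ht hk hξ).1 h1
    obtain ⟨q', hq', r, hr, h5, h6⟩ := (mem_RZ hM ht hk hξ).1 h2
    rw [ZFSet.pair_inj] at h4 h6
    have : q' = q := cd_inj (h6.1.symm.trans h4.2)
    subst this
    rw [h4.1, h6.2]
    exact (pair_mem_RZ hM ht hk hξ).2 ⟨hp, hr, Cn.Le.trans ht h3 h5⟩
  anti := by
    intro a b h1 h2
    obtain ⟨p, hp, q, hq, h3, h4⟩ := (mem_RZ hM ht hk hξ).1 h1
    rw [ZFSet.pair_inj] at h4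
    rw [h4.1, h4.2] at h2 ⊢
    have h5 := ((pair_mem_RZ hM ht hk hξ).1 h2).2.2
    rw [Cn.Le.antisymm ht h3 h5]

/-- Sets of conditions given by definable properties of codes. -/
theorem exists_X {D : Cn.{u} → Prop} {Dz : M → Prop} (hD : hM.Dfn (fun v : Fin 1 → M => Dz (v 0)))
    (h : ∀ p ∈ SS t M ξ, ∀ z : M, z.1 = cd p → (Dz z ↔ D p)) : ∃ X ∈ M, ∀ p ∈ SS t M ξ, (cd p ∈ X ↔ D p) := by
  obtain ⟨X, hX, hX'⟩ := hM.exists_sep hD (PZ_mem hM ht hk hξ)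
  refine ⟨X, hX, fun p hp => ?_⟩
  have mp := cd_mem_M hM ht hk hξ hp
  rw [hX', ← h p hp ⟨_, mp⟩ rfl]
  exact ⟨fun ⟨_, _, h1⟩ => h1, fun h1 => ⟨(cd_mem_PZ hM ht hk hξ).2 hp, mp, h1⟩⟩

end

/-! ### Generic filters -/

theorem fr_of_gn (hM : CTM M) {t : Tm} (ht : t.Ax) (hk : t.In M) {δ : Ordinal.{u}} (hδ : δ.toZFSet ∈ M)
    {G : Set Cn.{u}} (hG : Gn t M δ G) : Fr M (PZ t M δ) (RZ t M δ) (cd '' G) where
  hM := hM
  hP := PZ_mem hM ht hk hδ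
  hR := RZ_mem hM ht hk hδ
  po := po_PZ hM ht hk hδ
  gen := by
    refine ⟨?_, ?_, ?_, ?_, ?_⟩
    · rintro _ ⟨p, hp, rfl⟩
      exact (cd_mem_PZ hM ht hk hδ).2 (hG.sub p hp)
    · exact hG.ne.image _
    · rintro _ ⟨p, hp, rfl⟩ q hq
      obtain ⟨p', hp', q', hq', h1, h2⟩ := (mem_RZ hM ht hk hδ).1 hq
      rw [ZFSet.pair_inj] at h2
      rw [h2.2]
      exact ⟨q', hG.up p hp q' hq' (by rw [cd_inj h2.1]; exact h1), rfl⟩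
    · rintro _ ⟨p, hp, rfl⟩ _ ⟨q, hq, rfl⟩
      obtain ⟨r, hr, h1, h2⟩ := hG.dir p hp q hq
      exact ⟨cd r, ⟨r, hr, rfl⟩, (pair_mem_RZ hM ht hk hδ).2 ⟨hG.sub r hr, hG.sub p hp, h1⟩,
        (pair_mem_RZ hM ht hk hδ).2 ⟨hG.sub r hr, hG.sub q hq, h2⟩⟩
    · intro D hD hd
      obtain ⟨p, hp, hpD⟩ := hG.gen D hD (by
        intro p hp
        obtain ⟨q, hq, h1⟩ := hd (cd p) ((cd_mem_PZ hM ht hk hδ).2 hp)
        obtain ⟨q', hq', p', hp', h2, h3⟩ := (mem_RZ hM ht hk hδ).1 h1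
        rw [ZFSet.pair_inj] at h3
        rw [cd_inj h3.2, ]
        exact ⟨q', hq', h2, by rw [← h3.1]; exact hq⟩)
      exact ⟨cd p, ⟨p, hp, rfl⟩, hpD⟩

/-- Generic filters exist. -/
theorem exists_gn (hM : CTM M) {t : Tm} (ht : t.Ax) (hk : t.In M) {δ : Ordinal.{u}} (hδ : δ.toZFSet ∈ M) :
    ∃ G, Gn t M δ G := by
  have po := po_PZ hM ht hk hδ
  obtain ⟨Q, inst, c, hQ, hc, hle⟩ := exists_poset (PZ_mem hM ht hk hδ) (RZ_mem hM ht hk hδ) po.rel po.refl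
    po.trans po.anti
  obtain ⟨q0, hq0⟩ := (hc (cd Cn.one)).1 ((cd_mem_PZ hM ht hk hδ).2 one_mem_SS)
  obtain ⟨G, hG, _⟩ := exists_genF hM.countable c q0
  refine ⟨{p | p ∈ SS t M δ ∧ ∃ q ∈ G, cd p = c q}, ?_, ?_, ?_, ?_, ?_⟩
  · exact fun p hp => hp.1
  · obtain ⟨q, hq⟩ := hG.ne
    obtain ⟨p, hp, h1⟩ := (mem_PZ hM ht hk hδ).1 ((hc _).2 ⟨q, rfl⟩)
    exact ⟨p, hp, q, hq, h1.symm⟩
  · rintro p ⟨hp, q, hq, h1⟩ p' hp' hle'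
    obtain ⟨q', hq'⟩ := (hc (cd p')).1 ((cd_mem_PZ hM ht hk hδ).2 hp')
    refine ⟨hp', q', hG.up q hq q' ((hle _ _).2 ?_), hq'⟩
    rw [← h1, ← hq']
    exact (pair_mem_RZ hM ht hk hδ).2 ⟨hp, hp', hle'⟩
  · rintro p ⟨hp, q, hq, h1⟩ p' ⟨hp', q', hq', h1'⟩
    obtain ⟨r, hr, h2, h3⟩ := hG.dir q hq q' hq'
    obtain ⟨s, hs, h4⟩ := (mem_PZ hM ht hk hδ).1 ((hc _).2 ⟨r, rfl⟩)
    have h5 := (hle _ _).1 h2
    have h6 := (hle _ _).1 h3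
    rw [h4, ← h1] at h5
    rw [h4, ← h1'] at h6
    exact ⟨s, ⟨hs, r, hr, h4.symm⟩, ((pair_mem_RZ hM ht hk hδ).1 h5).2.2, ((pair_mem_RZ hM ht hk hδ).1 h6).2.2⟩
  · intro D hD hd
    obtain ⟨q, hq, hqD⟩ := hG.gen D hD (by
      intro q
      obtain ⟨p, hp, h1⟩ := (mem_PZ hM ht hk hδ).1 ((hc _).2 ⟨q, rfl⟩)
      obtain ⟨p', hp', h2, h3⟩ := hd p hp
      obtain ⟨q', hq'⟩ := (hc (cd p')).1 ((cd_mem_PZ hM ht hk hδ).2 hp')
      refine ⟨q', (hle _ _).2 ?_, by rw [← hq']; exact h3⟩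
      rw [h1, ← hq']
      exact (pair_mem_RZ hM ht hk hδ).2 ⟨hp', hp, h2⟩)
    obtain ⟨p, hp, h1⟩ := (mem_PZ hM ht hk hδ).1 ((hc _).2 ⟨q, rfl⟩)
    exact ⟨p, ⟨hp, q, hq, h1.symm⟩, by rw [← h1]; exact hqD⟩

end Pool.Agent.H52.GP
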