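import Pool.Agent.H52.GP.Res
import Pool.Agent.H83.GP.AP
import Pool.Agent.H17.Omega.CtmD

/-!
# MP_66e4cf_lc: closing off; every real of the final model is in an intermediate model
-/

set_option autoImplicit false
set_option linter.unusedVariables false
set_option linter.unusedSectionVars false
set_option linter.unusedSimpArgs false
set_option linter.unreachableTactic false
set_option linter.unusedTactic false

universe u

open Pool.Agent.H17.Omega Pool.Agent.H17.Omega.CTM Pool.Agent.H52.GX Pool.Agent.H52.GC Pool.Agent.H83.GP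

namespace Pool.Agent.H52.GP

variable {M : Set ZFSet.{u}}

/-! ### The stem of a condition -/

/-- the stems of the condition `p`, as a set of pairs -/
def scs (p : Cn.{u}) : Set ZFSet.{u} := {z | ∃ ξ, p.f ξ ≠ (0, ∅) ∧ z = ZFSet.pair ξ.toZFSet (natZ (p.f ξ).1)}

theorem scs_finite (p : Cn.{u}) : (scs p).Finite := by
  refine (p.fin.image (fun ξ => ZFSet.pair ξ.toZFSet (natZ (p.f ξ).1))).subset ?_
  rintro z ⟨ξ, h, rfl⟩
  exact ⟨ξ, h, rfl⟩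

instance (p : Cn.{u}) : Small.{u} (scs p) := by
  have := (scs_finite p).to_subtype
  infer_instance

/-- the stems of the condition `p` -/
noncomputable def sc (p : Cn.{u}) : ZFSet.{u} := zs (scs p)

theorem mem_sc {p : Cn.{u}} {z : ZFSet.{u}} : z ∈ sc p ↔ ∃ ξ, p.f ξ ≠ (0, ∅) ∧
    z = ZFSet.pair ξ.toZFSet (natZ (p.f ξ).1) := mem_zs

theorem finZ_sc (p : Cn.{u}) : FinZ (sc p) := by
  classical
  refine ⟨(scs_finite p).toFinset, fun z => ?_⟩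
  rw [Set.Finite.mem_toFinset, mem_sc]; rfl

theorem sc_mem (hM : CTM M) {p : Cn.{u}} (h : cd p ∈ M) : sc p ∈ M := by
  refine FinZ.mem (X := sc p) hM (finZ_sc p) ?_
  intro z hz
  obtain ⟨ξ, h1, rfl⟩ := mem_sc.1 hz
  exact hM.pair_mem ((of_cd_mem hM h).1 ξ h1) (hM.natZ_mem_N _)

/-- `τ` is the stem of `z` -/
def ScC (z τ : M) : Prop := ∀ w : M, w.1 ∈ τ.1 ↔ ∃ η d m a : M, ZFSet.pair η.1 d.1 ∈ z.1 ∧
  d.1 = ZFSet.pair m.1 a.1 ∧ w.1 = ZFSet.pair η.1 m.1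

theorem ScC.dfn (hM : CTM M) : hM.Dfn (fun v : Fin 2 → M => ScC (v 0) (v 1)) := by
  unfold ScC
  (repeat' first
      | exact DT.var _ | exact DT.last | exact DT.const _ | assumption
      | refine Dfn.pairMem ?_ ?_ ?_ | refine Dfn.isPair ?_ ?_ ?_ | refine Dfn.mem ?_ ?_
      | refine Dfn.eqv ?_ ?_ | refine Dfn.eq ?_ ?_ | refine Dfn.subset ?_ ?_
      | refine Dfn.isEmpty ?_ | refine Dfn.isTrans ?_ | refine Dfn.isOrd ?_ | refine Dfn.isNat ?_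
      | refine Dfn.and ?_ ?_ | refine Dfn.or ?_ ?_ | refine Dfn.iff ?_ ?_ | refine Dfn.not ?_
      | refine Dfn.imp ?_ ?_ | refine Dfn.all ?_ | refine Dfn.ex ?_ | exact Dfn.false')

theorem scC_iff (hM : CTM M) {z τ : M} {p : Cn.{u}} (hz : z.1 = cd p) : ScC z τ ↔ τ.1 = sc p := by
  have hp : cd p ∈ M := by rw [← hz]; exact z.2
  have key : ∀ w : M, (∃ η d m a : M, ZFSet.pair η.1 d.1 ∈ z.1 ∧ d.1 = ZFSet.pair m.1 a.1 ∧
      w.1 = ZFSet.pair η.1 m.1) ↔ w.1 ∈ sc p := by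
    intro w
    rw [mem_sc, hz]
    constructor
    · rintro ⟨η, d, m, a, h1, h2, h3⟩
      obtain ⟨ξ, h4, h5⟩ := mem_cd.1 h1
      rw [h2, ZFSet.pair_inj, ZFSet.pair_inj] at h5
      exact ⟨ξ, h4, by rw [h3, h5.1, h5.2.1]⟩
    · rintro ⟨ξ, h4, h5⟩
      have h6 : ZFSet.pair ξ.toZFSet (ZFSet.pair (natZ (p.f ξ).1) (fs (p.f ξ).2)) ∈ cd p := pair_mem_cd.2 ⟨h4, rfl⟩
      have m1 := hM.of_pair_mem (hM.mem_of_mem hp h6)
      have m2 := hM.of_pair_mem m1.2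
      exact ⟨⟨_, m1.1⟩, ⟨_, m1.2⟩, ⟨_, m2.1⟩, ⟨_, m2.2⟩, h6, rfl, h5⟩
  constructor
  · intro h
    exact hM.ext' τ.2 (sc_mem hM hp) fun w => (h w).trans (key w)
  · intro h w
    rw [h]; exact (key w).symm

theorem stem_eq_of_sc {t : Tm} (ht : t.Ax) {ξ ξ' : Ordinal.{u}} {p q : Cn.{u}} (hp : p ∈ SS t M ξ)
    (hq : q ∈ SS t M ξ') (h : sc p = sc q) (η : Ordinal.{u}) : (p.f η).1 = (q.f η).1 := by
  have key : ∀ (p q : Cn.{u}), sc p = sc q → p.f η ≠ (0, ∅) → (p.f η).1 = (q.f η).1 ∧ q.f η ≠ (0, ∅) := by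
    intro p q h h1
    have h2 : ZFSet.pair η.toZFSet (natZ (p.f η).1) ∈ sc q := by rw [← h]; exact mem_sc.2 ⟨η, h1, rfl⟩
    obtain ⟨θ, h3, h4⟩ := mem_sc.1 h2
    rw [ZFSet.pair_inj, toZFSet_inj, natZ_inj] at h4
    rw [← h4.1] at h3 h4
    exact ⟨h4.2, h3⟩
  by_cases h1 : p.f η = (0, ∅)
  · by_cases h2 : q.f η = (0, ∅)
    · rw [h1, h2]
    · exact ((key q p h.symm h2).2 h1).elim
  · exact (key p q h h1).1

theorem sc_subset {t : Tm} {ξ : Ordinal.{u}} {p : Cn.{u}} (hp : p ∈ SS t M ξ) : sc p ⊆ ZFSet.prod ξ.toZFSet omZ := by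
  intro z hz
  obtain ⟨η, h1, rfl⟩ := mem_sc.1 hz
  rw [ZFSet.pair_mem_prod]
  exact ⟨Ordinal.toZFSet_mem_toZFSet_iff.2 (SS_supp hp h1), natZ_mem_omZ _⟩

/-- Conditions have bounded support. -/
theorem exists_lt_SS {t : Tm} {δ : Ordinal.{u}} (h0 : 0 < δ) (hlim : ∀ α < δ, α + 1 < δ) {p : Cn.{u}}
    (hp : p ∈ SS t M δ) : ∃ γ < δ, p ∈ SS t M γ := by
  classical
  have h1 : ∃ γ < δ, ∀ η, p.f η ≠ (0, ∅) → η < γ := by
    have h2 : ∀ s : Finset Ordinal.{u}, (∀ η ∈ s, η < δ) → ∃ γ < δ, ∀ η ∈ s, η < γ := by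
      intro s
      induction s using Finset.induction_on with
      | empty => intro _; exact ⟨0, h0, fun η h => absurd h (Finset.notMem_empty η)⟩
      | insert x s hx ih =>
        intro h3
        obtain ⟨γ, h4, h5⟩ := ih (fun η hη => h3 η (Finset.mem_insert_of_mem hη))
        refine ⟨max γ (x + 1), max_lt h4 (hlim x (h3 x (Finset.mem_insert_self _ _))), ?_⟩
        intro η hη
        rcases Finset.mem_insert.1 hη with rfl | hη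
        · exact lt_max_of_lt_right (Order.lt_add_one_iff.2 le_rfl)
        · exact lt_max_of_lt_left (h5 η hη)
    obtain ⟨γ, h3, h4⟩ := h2 p.fin.toFinset (fun η hη => SS_supp hp (by simpa using hη))
    exact ⟨γ, h3, fun η hη => h4 η (by simpa using hη)⟩
  obtain ⟨γ, h2, h3⟩ := h1
  refine ⟨γ, h2, mem_SS_of_res hp ?_⟩
  apply Cn.ext'
  intro η
  by_cases h4 : η < γ
  · exact Cn.res_lt h4
  · rw [Cn.res_ge h4]
    by_contra h5
    exact h4 (h3 η (fun h => h5 h.symm))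

/-! ### Antichains -/

/-- An infinite sequence of conditions with the same stem has two compatible members. -/
theorem exists_compat {t : Tm} (ht : t.Ax) {β : Ordinal.{u}} {e : ℕ → Cn.{u}} (he : ∀ i, e i ∈ SS t M β)
    (hs : ∀ i, sc (e i) = sc (e 0)) : ∃ i j, i < j ∧ ∃ r ∈ SS t M β, r.Le t (e i) ∧ r.Le t (e j) := by
  classical
  set n := {η | ((e 0).f η).1 ≠ 0}.ncard with hn
  obtain ⟨J, hJ, hJc, q, hq, hle⟩ := AP ht n β e (Finset.range (2 ^ n + 1)) (fun i _ => he i)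
    (fun i _ j _ η => stem_eq_of_sc ht (he i) (he j) ((hs i).trans (hs j).symm) η) (by
      intro i _
      have : {η | ((e i).f η).1 ≠ 0} = {η | ((e 0).f η).1 ≠ 0} := by
        ext η
        show ((e i).f η).1 ≠ 0 ↔ ((e 0).f η).1 ≠ 0
        rw [stem_eq_of_sc ht (he i) (he 0) (hs i) η]
      rw [this])
  rw [Finset.card_range] at hJc
  have h2 : 1 < J.card := by
    by_contra h3
    have h4 : J.card ≤ 1 := not_lt.1 h3
    have h5 : 2 ^ n * J.card ≤ 2 ^ n * 1 := Nat.mul_le_mul_left _ h4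
    omega
  obtain ⟨i, hi, j, hj, hij⟩ := Finset.one_lt_card.1 h2
  rcases lt_or_gt_of_ne hij with h3 | h3
  · exact ⟨i, j, h3, q, hq, hle i hi, hle j hj⟩
  · exact ⟨j, i, h3, q, hq, hle j hj, hle i hi⟩

/-- For a fixed stem below `β`, boundedly many elements of a set `D` of conditions suffice. -/
theorem exists_gamma {t : Tm} (ht : t.Ax) {δ : Ordinal.{u}} (h0 : 0 < δ) (hlim : ∀ α < δ, α + 1 < δ)
    (D : Cn.{u} → Prop) (β : Ordinal.{u}) (τ : ZFSet.{u}) :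
    ∃ γ < δ, ∀ d ∈ SS t M δ, D d → sc (d.res β) = τ → ∃ d' ∈ SS t M γ, D d' ∧
      ∃ r ∈ SS t M β, r.Le t (d.res β) ∧ r.Le t (d'.res β) := by
  classical
  by_contra hcon
  push Not at hcon
  have : Nonempty Cn.{u} := ⟨Cn.one⟩
  choose! d hd1 hd2 hd3 hd4 using hcon
  have hex : ∀ x : {γ : Ordinal.{u} // γ < δ}, ∃ y : {γ : Ordinal.{u} // γ < δ}, x.1 ≤ y.1 ∧
      d x.1 ∈ SS t M y.1 := by
    intro x
    obtain ⟨γ, hγ, h1⟩ := exists_lt_SS h0 hlim (hd1 x.1 x.2)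
    exact ⟨⟨max x.1 γ, max_lt x.2 hγ⟩, le_max_left _ _, SS_mono (le_max_right _ _) h1⟩
  choose nx hnx1 hnx2 using hex
  let g : ℕ → {γ : Ordinal.{u} // γ < δ} := fun n => Nat.rec ⟨0, h0⟩ (fun _ x => nx x) n
  have gS : ∀ n, g (n + 1) = nx (g n) := fun n => rfl
  have hmono : ∀ i j, i ≤ j → (g i).1 ≤ (g j).1 := by
    intro i j hij
    induction hij with
    | refl => exact le_rfl
    | step _ ih => exact ih.trans (by rw [gS]; exact hnx1 _)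
  have hmem : ∀ i j, i < j → d (g i).1 ∈ SS t M (g j).1 := by
    intro i j hij
    have h1 := hnx2 (g i)
    rw [← gS] at h1
    exact SS_mono (hmono (i + 1) j hij) h1
  obtain ⟨i, j, hij, r, hr, h1, h2⟩ := exists_compat (M := M) ht (β := β) (e := fun i => (d (g i).1).res β)
    (fun i => res_mem_SS (hd1 _ (g i).2)) (fun i => by
      show sc ((d (g i).1).res β) = sc ((d (g 0).1).res β)
      rw [hd3 _ (g i).2, hd3 _ (g 0).2])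
  exact hd4 _ (g j).2 (d (g i).1) (hmem i j hij) (hd2 _ (g i).2) r hr h2 h1

/-! ### Closing off -/

/-- `((i, a), p) ∈ ν` for some `a` -/
def Dn (ν : ZFSet.{u}) (i : ℕ) (p : Cn.{u}) : Prop := ∃ a, ZFSet.pair (ZFSet.pair (natZ i) a) (cd p) ∈ ν

/-- the bound `y` suffices for the stem `τ` below `β` and for the index `n` -/
def PsiC (P Pβ β rle ν n τ y : M) : Prop := ∀ d : M, d.1 ∈ P.1 → (∃ x a : M, x.1 = ZFSet.pair n.1 a.1 ∧
  ZFSet.pair x.1 d.1 ∈ ν.1) → ∀ d1 : M, ResC d β d1 → ScC d1 τ → ∃ d' : M, d'.1 ∈ P.1 ∧ ResC d' y d' ∧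
    (∃ x a : M, x.1 = ZFSet.pair n.1 a.1 ∧ ZFSet.pair x.1 d'.1 ∈ ν.1) ∧ ∃ d2 r : M, ResC d' β d2 ∧
      r.1 ∈ Pβ.1 ∧ LeC rle r d1 ∧ LeC rle r d2

theorem PsiC.dfn (hM : CTM M) (P Pβ β rle ν : M) :
    hM.Dfn (fun v : Fin 3 → M => PsiC P Pβ β rle ν (v 0) (v 1) (v 2)) := by
  obtain ⟨Rs, hRs, hRs'⟩ : ∃ Rs : M → M → M → Prop, hM.Dfn (fun v : Fin 3 → M => Rs (v 0) (v 1) (v 2)) ∧
      ∀ x y z, Rs x y z ↔ ResC x y z := ⟨_, ResC.dfn hM, fun _ _ _ => Iff.rfl⟩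
  obtain ⟨L, hL, hL'⟩ : ∃ L : M → M → M → Prop, hM.Dfn (fun v : Fin 3 → M => L (v 0) (v 1) (v 2)) ∧
      ∀ x y z, L x y z ↔ LeC x y z := ⟨_, LeC.dfn hM, fun _ _ _ => Iff.rfl⟩
  obtain ⟨S, hS, hS'⟩ : ∃ S : M → M → Prop, hM.Dfn (fun v : Fin 2 → M => S (v 0) (v 1)) ∧
      ∀ x y, S x y ↔ ScC x y := ⟨_, ScC.dfn hM, fun _ _ => Iff.rfl⟩
  unfold PsiC
  simp only [← hRs', ← hL', ← hS']
  (repeat' first
      | exact DT.var _ | exact DT.last | exact DT.const _ | assumption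
      | refine Dfn.pairMem ?_ ?_ ?_ | refine Dfn.isPair ?_ ?_ ?_ | refine Dfn.mem ?_ ?_
      | refine Dfn.eqv ?_ ?_ | refine Dfn.eq ?_ ?_ | refine Dfn.subset ?_ ?_
      | refine Dfn.isEmpty ?_ | refine Dfn.isTrans ?_ | refine Dfn.isOrd ?_ | refine Dfn.isNat ?_
      | refine Dfn.and ?_ ?_ | refine Dfn.or ?_ ?_ | refine Dfn.iff ?_ ?_ | refine Dfn.not ?_
      | refine Dfn.imp ?_ ?_ | refine Dfn.all ?_ | refine Dfn.ex ?_ | exact Dfn.false')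
  all_goals first
    | exact Dfn.subst3 hRs (DT.var _) (DT.const _) (DT.var _)
    | exact Dfn.subst3 hRs (DT.var _) (DT.var _) (DT.var _)
    | exact Dfn.subst3 hL (DT.const _) (DT.var _) (DT.var _)
    | exact Dfn.subst2 hS (DT.var _) (DT.var _)

section

variable (hM : CTM M) {t : Tm} (ht : t.Ax) (hk : t.In M) {δ : Ordinal.{u}} (hδ : IsOm1 M δ)

include hM ht hk hδ

theorem psiC_iff {β γ : Ordinal.{u}} (hβ : β < δ) (hγ : γ < δ) {P Pβ b rle ν n τ y : M} (hP : P.1 = PZ t M δ)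
    (hPβ : Pβ.1 = PZ t M β) (hb : b.1 = β.toZFSet) (hr : rle.1 = r2z t.le) {i : ℕ} (hn : n.1 = natZ i)
    (hy : y.1 = γ.toZFSet) : PsiC P Pβ b rle ν n τ y ↔ ∀ d ∈ SS t M δ, Dn ν.1 i d → sc (d.res β) = τ.1 →
      ∃ d' ∈ SS t M γ, Dn ν.1 i d' ∧ ∃ r ∈ SS t M β, r.Le t (d.res β) ∧ r.Le t (d'.res β) := by
  have hδM := hδ.mem
  have hβM := hM.toZFSet_mem_of_le hβ.le hδM
  have hDn : ∀ {d : M} {p : Cn.{u}}, d.1 = cd p → ((∃ x a : M, x.1 = ZFSet.pair n.1 a.1 ∧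
      ZFSet.pair x.1 d.1 ∈ ν.1) ↔ Dn ν.1 i p) := by
    intro d p hd
    constructor
    · rintro ⟨x, a, h1, h2⟩
      refine ⟨a.1, ?_⟩
      rw [← hn, ← h1, ← hd]; exact h2
    · rintro ⟨a, h1⟩
      have m1 := hM.of_pair_mem (hM.mem_of_mem ν.2 h1)
      have m2 := hM.of_pair_mem m1.1
      exact ⟨⟨_, m1.1⟩, ⟨_, m2.2⟩, by rw [hn], by rw [hd]; exact h1⟩
  have hres : ∀ {p : Cn.{u}}, p ∈ SS t M δ → cd (p.res β) ∈ M := fun hp => cd_mem_M hM ht hk hβM (res_mem_SS hp)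
  constructor
  · intro h d hd h1 h2
    have md := cd_mem_M hM ht hk hδM hd
    obtain ⟨d', h3, h4, h5, d2, r, h6, h7, h8, h9⟩ := h ⟨cd d, md⟩ (by
      rw [hP]; exact (cd_mem_PZ hM ht hk hδM).2 hd) ((hDn rfl).2 h1) ⟨_, hres hd⟩
      ((resC_iff hM rfl hb).2 rfl) ((scC_iff hM rfl).2 h2.symm)
    rw [hP] at h3
    obtain ⟨p', hp', hdp⟩ := (mem_PZ hM ht hk hδM).1 h3
    rw [hPβ] at h7
    obtain ⟨r', hr', hrr⟩ := (mem_PZ hM ht hk hβM).1 h7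
    have h10 := (resC_iff hM hdp hy).1 h4
    have h11 := (resC_iff hM hdp hb).1 h6
    refine ⟨p', mem_SS_of_res hp' (cd_inj (h10.symm.trans hdp)), (hDn hdp).1 h5, r', hr', ?_, ?_⟩
    · exact (leC_iff hM ht hr hrr rfl).1 h8
    · exact (leC_iff hM ht hr hrr h11).1 h9
  · intro h d hd h1 d1 h2 h3
    rw [hP] at hd
    obtain ⟨p, hp, hdp⟩ := (mem_PZ hM ht hk hδM).1 hd
    have h4 := (resC_iff hM hdp hb).1 h2
    obtain ⟨p', hp', h5, r, hr', h6, h7⟩ := h p hp ((hDn hdp).1 h1) ((scC_iff hM h4).1 h3).symm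
    have hp2 : p' ∈ SS t M δ := SS_mono hγ.le hp'
    have mp := cd_mem_M hM ht hk hδM hp2
    have mr := cd_mem_M hM ht hk hβM hr'
    refine ⟨⟨_, mp⟩, ?_, ?_, (hDn rfl).2 h5, ⟨_, hres hp2⟩, ⟨_, mr⟩, (resC_iff hM rfl hb).2 rfl, ?_, ?_, ?_⟩
    · rw [hP]; exact (cd_mem_PZ hM ht hk hδM).2 hp2
    · refine (resC_iff hM rfl hy).2 ?_
      rw [res_of_SS hp']
    · rw [hPβ]; exact (cd_mem_PZ hM ht hk hβM).2 hr'
    · exact (leC_iff hM ht hr rfl h4).2 h6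
    · exact (leC_iff hM ht hr rfl rfl).2 h7

/-- The bound for all stems below `β`. -/
theorem exists_bound {ν : ZFSet.{u}} (hν : ν ∈ M) (hdense : ∀ i, ∀ p ∈ SS t M δ, ∃ q ∈ SS t M δ, q.Le t p ∧ Dn ν i q)
    {β : Ordinal.{u}} (hβ : β < δ) : ∃ γ, β < γ ∧ γ < δ ∧ ∀ i, ∀ p ∈ SS t M β, ∃ d ∈ SS t M γ, Dn ν i d ∧
      ∃ r ∈ SS t M γ, r.Le t p ∧ r.Le t d := by
  have hδM := hδ.mem
  have hβM := hM.toZFSet_mem_of_le hβ.le hδM
  have h0 : 0 < δ := by simpa using hδ.omega_lt hM 0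
  have hlim : ∀ α < δ, α + 1 < δ := fun α hα => hδ.succ_lt hM hα
  obtain ⟨Fi, hFi, hFi'⟩ := exists_fin hM (hM.prod_mem hβM hM.omZ_mem)
  have hFc : Ctb M Fi := Ctb.fin hM (Ctb.prod hM (hδ.ctb β hβ) (ctb_om hM)) (fun y hy => (hFi' y).1 hy)
  obtain ⟨Psi, hPsi, hPsi'⟩ : ∃ Psi : M → M → M → Prop, hM.Dfn (fun v : Fin 3 → M => Psi (v 0) (v 1) (v 2)) ∧
      ∀ n τ y, Psi n τ y ↔ PsiC ⟨_, PZ_mem hM ht hk hδM⟩ ⟨_, PZ_mem hM ht hk hβM⟩ ⟨_, hβM⟩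
        ⟨_, r2z_mem hM hk.le⟩ ⟨ν, hν⟩ n τ y := ⟨_, PsiC.dfn hM _ _ _ _ _, fun _ _ _ => Iff.rfl⟩
  obtain ⟨α, hα, hbd⟩ := hδ.bdd hM (hM.prod_mem hM.omZ_mem hFi) (Ctb.prod hM (ctb_om hM) hFc)
    (F := fun x y => ∃ n τ : M, x.1 = ZFSet.pair n.1 τ.1 ∧ y.1 ∈ (⟨_, hδM⟩ : M).1 ∧ Psi n τ y ∧
      ∀ y' : M, y'.1 ∈ y.1 → ¬ Psi n τ y') (by
      (repeat' first
          | exact DT.var _ | exact DT.last | exact DT.const _ | assumption
          | refine Dfn.pairMem ?_ ?_ ?_ | refine Dfn.isPair ?_ ?_ ?_ | refine Dfn.mem ?_ ?_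
          | refine Dfn.eqv ?_ ?_ | refine Dfn.eq ?_ ?_ | refine Dfn.subset ?_ ?_
          | refine Dfn.isEmpty ?_ | refine Dfn.isTrans ?_ | refine Dfn.isOrd ?_
          | refine Dfn.isNat ?_ | refine Dfn.and ?_ ?_ | refine Dfn.or ?_ ?_
          | refine Dfn.iff ?_ ?_ | refine Dfn.not ?_ | refine Dfn.imp ?_ ?_ | refine Dfn.all ?_
          | refine Dfn.ex ?_ | exact Dfn.false')
      all_goals exact Dfn.subst3 hPsi (DT.var _) (DT.var _) (DT.var _)) (by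
      rintro x hx y y' ⟨n, τ, h1, h2, h3, h4⟩ ⟨n', τ', h1', h2', h3', h4'⟩
      rw [h1, ZFSet.pair_inj] at h1'
      have e1 : n = n' := Subtype.ext h1'.1
      have e2 : τ = τ' := Subtype.ext h1'.2
      subst e1 e2
      obtain ⟨γ, hγ, hγy⟩ := Ordinal.mem_toZFSet_iff.1 h2
      obtain ⟨ε, hε, hεy⟩ := Ordinal.mem_toZFSet_iff.1 h2'
      rcases lt_trichotomy γ ε with h | h | h
      · exact (h4' y (by rw [← hγy, ← hεy]; exact Ordinal.toZFSet_mem_toZFSet_iff.2 h) h3).elim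
      · exact Subtype.ext (by rw [← hγy, ← hεy, h])
      · exact (h4 y' (by rw [← hγy, ← hεy]; exact Ordinal.toZFSet_mem_toZFSet_iff.2 h) h3').elim)
  -- the bound works
  have key : ∀ i, ∀ d ∈ SS t M δ, Dn ν i d → ∃ d' ∈ SS t M α, Dn ν i d' ∧
      ∃ r ∈ SS t M β, r.Le t (d.res β) ∧ r.Le t (d'.res β) := by
    intro i d hd h1
    have hdβ := res_mem_SS (η := β) hd
    have mτ : sc (d.res β) ∈ M := sc_mem hM (cd_mem_M hM ht hk hβM hdβ)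
    have hτ : sc (d.res β) ∈ Fi := (hFi' _).2 ⟨sc_subset hdβ, finZ_sc _⟩
    -- the least bound for this stem
    have hne : {γ : Ordinal.{u} | γ < δ ∧ ∀ d1 ∈ SS t M δ, Dn ν i d1 → sc (d1.res β) = sc (d.res β) →
        ∃ d' ∈ SS t M γ, Dn ν i d' ∧ ∃ r ∈ SS t M β, r.Le t (d1.res β) ∧ r.Le t (d'.res β)}.Nonempty :=
      exists_gamma ht h0 hlim (Dn ν i) β (sc (d.res β))
    have hmin := csInf_mem hne
    set γ := sInf {γ : Ordinal.{u} | γ < δ ∧ ∀ d1 ∈ SS t M δ, Dn ν i d1 → sc (d1.res β) = sc (d.res β) →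
        ∃ d' ∈ SS t M γ, Dn ν i d' ∧ ∃ r ∈ SS t M β, r.Le t (d1.res β) ∧ r.Le t (d'.res β)} with hγ
    have mγ := hM.toZFSet_mem_of_le hmin.1.le hδM
    have hle : γ ≤ α := by
      refine hbd ⟨ZFSet.pair (natZ i) (sc (d.res β)), hM.pair_mem (hM.natZ_mem_N _) mτ⟩ ?_ ⟨_, mγ⟩
        ⟨nz hM i, ⟨_, mτ⟩, rfl, Ordinal.toZFSet_mem_toZFSet_iff.2 hmin.1, ?_, ?_⟩ γ hmin.1 rfl
      · rw [ZFSet.pair_mem_prod]; exact ⟨natZ_mem_omZ _, hτ⟩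
      · rw [hPsi', psiC_iff hM ht hk hδ hβ hmin.1 rfl rfl rfl rfl rfl rfl]
        exact hmin.2
      · intro y' hy' h2
        obtain ⟨ε, hε, hεy⟩ := Ordinal.mem_toZFSet_iff.1 hy'
        rw [hPsi', psiC_iff hM ht hk hδ hβ (hε.trans hmin.1) rfl rfl rfl rfl rfl hεy.symm] at h2
        exact notMem_of_lt_csInf hε (OrderBot.bddBelow _) ⟨hε.trans hmin.1, h2⟩
    obtain ⟨d', h2, h3, h4⟩ := hmin.2 d hd h1 rfl
    exact ⟨d', SS_mono hle h2, h3, h4⟩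
  refine ⟨max α β + 1, Order.lt_add_one_iff.2 (le_max_right _ _), hlim _ (max_lt hα hβ), fun i p hp => ?_⟩
  have hαγ : α ≤ max α β + 1 := (le_max_left _ _).trans (Order.lt_add_one_iff.2 le_rfl).le
  have hβγ : β ≤ max α β + 1 := (le_max_right _ _).trans (Order.lt_add_one_iff.2 le_rfl).le
  obtain ⟨q, hq, hqp, h1⟩ := hdense i p (SS_mono hβ.le hp)
  obtain ⟨d', h2, h3, r, hr, h4, h5⟩ := key i q hq h1
  have h6 : d' ∈ SS t M (max α β + 1) := SS_mono hαγ h2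
  refine ⟨d', h6, h3, r.cat β d', cat_mem_SS ht hr hβγ h6 h5, ?_, Cn.le_cat_right ht h5⟩
  have h7 : (r.cat β d').Le t r := Cn.le_cat_left ht (fun x hx => SS_ge hr hx)
  have h8 : (q.res β).Le t p := by
    have := hqp.res ht β
    rwa [res_of_SS hp] at this
  exact (h7.trans ht h4).trans ht h8

/-- The relation of `exists_bound` in the model. -/
def PhiC (P ω' rle ν x y : M) : Prop := ∀ n : M, n.1 ∈ ω'.1 → ∀ p : M, p.1 ∈ P.1 → ResC p x p → ∃ d r : M,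
  d.1 ∈ P.1 ∧ ResC d y d ∧ r.1 ∈ P.1 ∧ ResC r y r ∧ (∃ w a : M, w.1 = ZFSet.pair n.1 a.1 ∧
    ZFSet.pair w.1 d.1 ∈ ν.1) ∧ LeC rle r p ∧ LeC rle r d

omit ht hk hδ in
theorem PhiC.dfn (P ω' rle ν : M) : hM.Dfn (fun v : Fin 2 → M => PhiC P ω' rle ν (v 0) (v 1)) := by
  obtain ⟨Rs, hRs, hRs'⟩ : ∃ Rs : M → M → M → Prop, hM.Dfn (fun v : Fin 3 → M => Rs (v 0) (v 1) (v 2)) ∧
      ∀ x y z, Rs x y z ↔ ResC x y z := ⟨_, ResC.dfn hM, fun _ _ _ => Iff.rfl⟩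
  obtain ⟨L, hL, hL'⟩ : ∃ L : M → M → M → Prop, hM.Dfn (fun v : Fin 3 → M => L (v 0) (v 1) (v 2)) ∧
      ∀ x y z, L x y z ↔ LeC x y z := ⟨_, LeC.dfn hM, fun _ _ _ => Iff.rfl⟩
  unfold PhiC
  simp only [← hRs', ← hL']
  (repeat' first
      | exact DT.var _ | exact DT.last | exact DT.const _ | assumption
      | refine Dfn.pairMem ?_ ?_ ?_ | refine Dfn.isPair ?_ ?_ ?_ | refine Dfn.mem ?_ ?_
      | refine Dfn.eqv ?_ ?_ | refine Dfn.eq ?_ ?_ | refine Dfn.subset ?_ ?_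
      | refine Dfn.isEmpty ?_ | refine Dfn.isTrans ?_ | refine Dfn.isOrd ?_ | refine Dfn.isNat ?_
      | refine Dfn.and ?_ ?_ | refine Dfn.or ?_ ?_ | refine Dfn.iff ?_ ?_ | refine Dfn.not ?_
      | refine Dfn.imp ?_ ?_ | refine Dfn.all ?_ | refine Dfn.ex ?_ | exact Dfn.false')
  all_goals first
    | exact Dfn.subst3 hRs (DT.var _) (DT.var _) (DT.var _)
    | exact Dfn.subst3 hL (DT.const _) (DT.var _) (DT.var _)

omit hδ in
theorem resC_self_iff (hδM : δ.toZFSet ∈ M) {β : Ordinal.{u}} {z x : M} (hx : x.1 = β.toZFSet) :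
    (z.1 ∈ PZ t M δ ∧ ResC z x z) ↔ ∃ p ∈ SS t M δ, p ∈ SS t M β ∧ z.1 = cd p := by
  constructor
  · rintro ⟨h1, h2⟩
    obtain ⟨p, hp, hpz⟩ := (mem_PZ hM ht hk hδM).1 h1
    have h3 := (resC_iff hM hpz hx).1 h2
    exact ⟨p, hp, mem_SS_of_res hp (cd_inj (h3.symm.trans hpz)), hpz⟩
  · rintro ⟨p, hp, hp', hpz⟩
    refine ⟨(mem_PZ hM ht hk hδM).2 ⟨p, hp, hpz⟩, (resC_iff hM hpz hx).2 ?_⟩
    rw [res_of_SS hp']; exact hpz

theorem phiC_iff {β γ : Ordinal.{u}} (hβ : β < δ) (hγ : γ < δ) {P ω' rle ν x y : M} (hP : P.1 = PZ t M δ)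
    (hω : ω'.1 = omZ) (hr : rle.1 = r2z t.le) (hx : x.1 = β.toZFSet) (hy : y.1 = γ.toZFSet) :
    PhiC P ω' rle ν x y ↔ ∀ i, ∀ p ∈ SS t M β, ∃ d ∈ SS t M γ, Dn ν.1 i d ∧
      ∃ r ∈ SS t M γ, r.Le t p ∧ r.Le t d := by
  have hδM := hδ.mem
  have hDn : ∀ {n d : M} {i : ℕ} {p : Cn.{u}}, n.1 = natZ i → d.1 = cd p → ((∃ x a : M, x.1 = ZFSet.pair n.1 a.1 ∧
      ZFSet.pair x.1 d.1 ∈ ν.1) ↔ Dn ν.1 i p) := by
    intro n d i p hn hd
    constructor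
    · rintro ⟨x, a, h1, h2⟩
      refine ⟨a.1, ?_⟩
      rw [← hn, ← h1, ← hd]; exact h2
    · rintro ⟨a, h1⟩
      have m1 := hM.of_pair_mem (hM.mem_of_mem ν.2 h1)
      have m2 := hM.of_pair_mem m1.1
      exact ⟨⟨_, m1.1⟩, ⟨_, m2.2⟩, by rw [hn], by rw [hd]; exact h1⟩
  constructor
  · intro h i p hp
    have hp2 : p ∈ SS t M δ := SS_mono hβ.le hp
    have mp := cd_mem_M hM ht hk hδM hp2
    obtain ⟨h1, h2⟩ := (resC_self_iff hM ht hk hδM (z := ⟨_, mp⟩) hx).2 ⟨p, hp2, hp, rfl⟩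
    obtain ⟨d, r, h3, h4, h5, h6, h7, h8, h9⟩ := h (nz hM i) (by rw [hω]; exact natZ_mem_omZ i) ⟨_, mp⟩
      (by rw [hP]; exact h1) h2
    rw [hP] at h3 h5
    obtain ⟨d', hd1, hd2, hd3⟩ := (resC_self_iff hM ht hk hδM hy).1 ⟨h3, h4⟩
    obtain ⟨r', hr1, hr2, hr3⟩ := (resC_self_iff hM ht hk hδM hy).1 ⟨h5, h6⟩
    exact ⟨d', hd2, (hDn rfl hd3).1 h7, r', hr2, (leC_iff hM ht hr hr3 rfl).1 h8, (leC_iff hM ht hr hr3 hd3).1 h9⟩
  · intro h n hn p h1 h2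
    rw [hω] at hn
    obtain ⟨i, hi⟩ := mem_omZ.1 hn
    rw [hP] at h1
    obtain ⟨p', hp1, hp2, hp3⟩ := (resC_self_iff hM ht hk hδM hx).1 ⟨h1, h2⟩
    obtain ⟨d, hd, h3, r, hr', h4, h5⟩ := h i p' hp2
    have hd2 : d ∈ SS t M δ := SS_mono hγ.le hd
    have hr2 : r ∈ SS t M δ := SS_mono hγ.le hr'
    have md := cd_mem_M hM ht hk hδM hd2
    have mr := cd_mem_M hM ht hk hδM hr2
    obtain ⟨h6, h7⟩ := (resC_self_iff hM ht hk hδM (z := ⟨_, md⟩) hy).2 ⟨d, hd2, hd, rfl⟩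
    obtain ⟨h8, h9⟩ := (resC_self_iff hM ht hk hδM (z := ⟨_, mr⟩) hy).2 ⟨r, hr2, hr', rfl⟩
    exact ⟨⟨_, md⟩, ⟨_, mr⟩, by rw [hP]; exact h6, h7, by rw [hP]; exact h8, h9, (hDn hi rfl).2 h3,
      (leC_iff hM ht hr rfl hp3).2 h4, (leC_iff hM ht hr rfl rfl).2 h5⟩

/-- Closing off: there is `α < δ` such that the elements of `D_i` in `P_α` are predense, for all `i`. -/
theorem exists_alpha {ν : ZFSet.{u}} (hν : ν ∈ M)
    (hdense : ∀ i, ∀ p ∈ SS t M δ, ∃ q ∈ SS t M δ, q.Le t p ∧ Dn ν i q) :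
    ∃ α < δ, ∀ i, ∀ p ∈ SS t M δ, ∃ d ∈ SS t M α, Dn ν i d ∧ ∃ r ∈ SS t M δ, r.Le t p ∧ r.Le t d := by
  have hδM := hδ.mem
  have h0 : 0 < δ := by simpa using hδ.omega_lt hM 0
  obtain ⟨Phi, hPhi, hPhi'⟩ : ∃ Phi : M → M → Prop, hM.Dfn (fun v : Fin 2 → M => Phi (v 0) (v 1)) ∧
      ∀ x y, Phi x y ↔ PhiC ⟨_, PZ_mem hM ht hk hδM⟩ ⟨_, hM.omZ_mem⟩ ⟨_, r2z_mem hM hk.le⟩ ⟨ν, hν⟩ x y :=
    ⟨_, PhiC.dfn hM _ _ _ _, fun _ _ => Iff.rfl⟩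
  obtain ⟨α, hα, hα0, hcl⟩ := hδ.closure hM hPhi (by
    intro β hβ
    obtain ⟨γ, h1, h2, h3⟩ := exists_bound hM ht hk hδ hν hdense hβ
    refine ⟨γ, h1, h2, fun x y hx hy => ?_⟩
    rw [hPhi', phiC_iff hM ht hk hδ hβ h2 rfl rfl rfl hx hy]
    exact h3) h0
  have hlim : ∀ ξ < α, ξ + 1 < α := by
    intro ξ hξ
    obtain ⟨β, γ, h1, h2, h3, _⟩ := hcl ξ hξ
    exact (Order.add_one_le_of_lt (h1.trans_lt h2)).trans_lt h3
  refine ⟨α, hα, fun i p hp => ?_⟩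
  have hpα := res_mem_SS (η := α) hp
  obtain ⟨ξ, hξ, h1⟩ := exists_lt_SS hα0 hlim hpα
  obtain ⟨β, γ, h2, h3, h4, h5⟩ := hcl ξ hξ
  have hβδ : β < δ := (h3.trans h4).trans hα
  have h6 := h5 ⟨_, hM.toZFSet_mem_of_le hβδ.le hδM⟩ ⟨_, hM.toZFSet_mem_of_le (h4.trans hα).le hδM⟩ rfl rfl
  rw [hPhi', phiC_iff hM ht hk hδ hβδ (h4.trans hα) rfl rfl rfl rfl rfl] at h6
  obtain ⟨d, hd, h7, r, hr, h8, h9⟩ := h6 i (p.res α) (SS_mono h2 h1)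
  have hrα : r ∈ SS t M α := SS_mono h4.le hr
  refine ⟨d, SS_mono h4.le hd, h7, r.cat α p, cat_mem_SS ht hrα hα.le hp h8, Cn.le_cat_right ht h8, ?_⟩
  exact (Cn.le_cat_left ht (fun x hx => SS_ge hrα hx)).trans ht h9

/-- Every sequence of elements of a set of the ground model is in an intermediate model. -/
theorem closing {G : Set Cn.{u}} (hG : Gn t M δ G) {A : ZFSet.{u}} (hA : A ∈ M) {s : ℕ → ZFSet.{u}}
    (hs : ∀ n, s n ∈ A) (hS : seqZ s ∈ ExtZ M (cd '' G)) : ∃ α < δ, seqZ s ∈ KK t M G α := by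
  have hδM := hδ.mem
  have hf := fr_of_gn hM ht hk hδM hG
  obtain ⟨ν, hν, hn, hval⟩ := hf.exists_seqNm hA hs hS
  obtain ⟨α, hα, hpre⟩ := exists_alpha hM ht hk hδ hν (by
    intro i p hp
    obtain ⟨q, hq, a, ha⟩ := hn.tot i (cd p) ((cd_mem_PZ hM ht hk hδM).2 hp)
    obtain ⟨q', hq', p', hp', h1, h2⟩ := (mem_RZ hM ht hk hδM).1 hq
    rw [ZFSet.pair_inj] at h2
    rw [cd_inj h2.2]
    exact ⟨q', hq', h1, a, by rw [← h2.1]; exact ha⟩)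
  refine ⟨α, hα, ?_⟩
  have hαM := hM.toZFSet_mem_of_le hα.le hδM
  have hL := LeC.dfn hM
  have hmeet : ∀ i, ∃ d ∈ Gr t M G α, Dn ν i d := by
    intro i
    obtain ⟨X, hX, hX'⟩ := exists_X hM ht hk hδM (D := fun p => ∃ d ∈ SS t M α, Dn ν i d ∧ p.Le t d)
      (Dz := fun z => ∃ d : M, d.1 ∈ (⟨_, PZ_mem hM ht hk hαM⟩ : M).1 ∧ (∃ w a : M,
        w.1 = ZFSet.pair (nz hM i).1 a.1 ∧ ZFSet.pair w.1 d.1 ∈ (⟨ν, hν⟩ : M).1) ∧
        LeC ⟨_, r2z_mem hM hk.le⟩ z d)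
      (Dfn.ex (Dfn.and (by (repeat' first
          | exact DT.var _ | exact DT.last | exact DT.const _ | assumption
          | refine Dfn.pairMem ?_ ?_ ?_ | refine Dfn.isPair ?_ ?_ ?_ | refine Dfn.mem ?_ ?_
          | refine Dfn.eqv ?_ ?_ | refine Dfn.eq ?_ ?_ | refine Dfn.subset ?_ ?_
          | refine Dfn.isEmpty ?_ | refine Dfn.isTrans ?_ | refine Dfn.isOrd ?_
          | refine Dfn.isNat ?_ | refine Dfn.and ?_ ?_ | refine Dfn.or ?_ ?_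
          | refine Dfn.iff ?_ ?_ | refine Dfn.not ?_ | refine Dfn.imp ?_ ?_ | refine Dfn.all ?_
          | refine Dfn.ex ?_ | exact Dfn.false')) (Dfn.and (by (repeat' first
          | exact DT.var _ | exact DT.last | exact DT.const _ | assumption
          | refine Dfn.pairMem ?_ ?_ ?_ | refine Dfn.isPair ?_ ?_ ?_ | refine Dfn.mem ?_ ?_
          | refine Dfn.eqv ?_ ?_ | refine Dfn.eq ?_ ?_ | refine Dfn.subset ?_ ?_
          | refine Dfn.isEmpty ?_ | refine Dfn.isTrans ?_ | refine Dfn.isOrd ?_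
          | refine Dfn.isNat ?_ | refine Dfn.and ?_ ?_ | refine Dfn.or ?_ ?_
          | refine Dfn.iff ?_ ?_ | refine Dfn.not ?_ | refine Dfn.imp ?_ ?_ | refine Dfn.all ?_
          | refine Dfn.ex ?_ | exact Dfn.false')) (Dfn.subst3 hL (DT.const _) (DT.var _) (DT.var _))))) (by
        intro p hp z hz
        constructor
        · rintro ⟨d, h1, ⟨w, a, h2, h3⟩, h4⟩
          obtain ⟨d', hd', hdd⟩ := (mem_PZ hM ht hk hαM).1 h1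
          refine ⟨d', hd', ⟨a.1, ?_⟩, (leC_iff hM ht rfl hz hdd).1 h4⟩
          rw [← hdd]
          have : ZFSet.pair (natZ i) a.1 = w.1 := h2.symm
          rw [this]; exact h3
        · rintro ⟨d, hd, ⟨a, h2⟩, h3⟩
          have m1 := hM.of_pair_mem (hM.mem_of_mem hν h2)
          have m2 := hM.of_pair_mem m1.1
          exact ⟨⟨_, m1.2⟩, (cd_mem_PZ hM ht hk hαM).2 hd, ⟨⟨_, m1.1⟩, ⟨_, m2.2⟩, rfl, h2⟩,
            (leC_iff hM ht rfl hz rfl).2 h3⟩)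
    obtain ⟨p, hp, hpX⟩ := hG.gen X hX (by
      intro p hp
      obtain ⟨d, hd, h1, r, hr, h2, h3⟩ := hpre i p hp
      exact ⟨r, hr, h2, (hX' r hr).2 ⟨d, hd, h1, h3⟩⟩)
    obtain ⟨d, hd, h1, h2⟩ := (hX' p (hG.sub p hp)).1 hpX
    exact ⟨d, ⟨hG.up p hp d (SS_mono hα.le hd) h2, hd⟩, h1⟩
  have hfα := fr_Gr hM ht hk hδM hG hα.le
  have hN : CTM (KK t M G α) := hfα.ctm
  have hMN : M ⊆ KK t M G α := hfα.sub
  obtain ⟨γ, hγ, hγ'⟩ := hfα.mem_g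
  have hγ : γ ∈ KK t M G α := hγ
  obtain ⟨b, hb, hb'⟩ := hN.exists_sep (P := fun z => ∃ w : KK t M G α, w.1 ∈ (⟨γ, hγ⟩ : KK t M G α).1 ∧
    ZFSet.pair z.1 w.1 ∈ (⟨ν, hMN hν⟩ : KK t M G α).1) (by (repeat' first
        | exact DT.var _ | exact DT.last | exact DT.const _ | assumption
        | refine Dfn.pairMem ?_ ?_ ?_ | refine Dfn.isPair ?_ ?_ ?_ | refine Dfn.mem ?_ ?_
        | refine Dfn.eqv ?_ ?_ | refine Dfn.eq ?_ ?_ | refine Dfn.subset ?_ ?_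
        | refine Dfn.isEmpty ?_ | refine Dfn.isTrans ?_ | refine Dfn.isOrd ?_
        | refine Dfn.isNat ?_ | refine Dfn.and ?_ ?_ | refine Dfn.or ?_ ?_ | refine Dfn.iff ?_ ?_
        | refine Dfn.not ?_ | refine Dfn.imp ?_ ?_ | refine Dfn.all ?_ | refine Dfn.ex ?_
        | exact Dfn.false')) (hN.prod_mem hN.omZ_mem (hMN hA))
  have : seqZ s = b := by
    ext z
    rw [mem_seqZ, hb']
    constructor
    · rintro ⟨n, rfl⟩
      obtain ⟨d, hd, a, ha⟩ := hmeet n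
      have h1 : a = s n := (hval n a).2 ⟨cd d, ⟨d, hd.1, rfl⟩, ha⟩
      have hdγ : cd d ∈ γ := (hγ' _).2 ⟨d, hd, rfl⟩
      have hzN : ZFSet.pair (natZ n) (s n) ∈ KK t M G α := hN.pair_mem (hN.natZ_mem_N n) (hMN (hM.mem_of_mem hA (hs n)))
      refine ⟨?_, hzN, ⟨cd d, hN.mem_of_mem hγ hdγ⟩, hdγ, ?_⟩
      · rw [ZFSet.pair_mem_prod]; exact ⟨natZ_mem_omZ n, hs n⟩
      · show ZFSet.pair (ZFSet.pair (natZ n) (s n)) (cd d) ∈ ν
        rw [← h1]; exact ha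
    · rintro ⟨h1, _, w, hw, h2⟩
      rw [ZFSet.mem_prod] at h1
      obtain ⟨x, hx, a, ha, rfl⟩ := h1
      obtain ⟨n, rfl⟩ := mem_omZ.1 hx
      obtain ⟨d, hd, hdw⟩ := (hγ' _).1 hw
      refine ⟨n, ?_⟩
      rw [(hval n a).2 ⟨cd d, ⟨d, hd.1, rfl⟩, by rw [hdw]; exact h2⟩]
  rw [this]; exact hb

end

end Pool.Agent.H52.GP
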