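import Pool.Agent.H52.GP.SetG
import Pool.Agent.H83.GP.It
import Pool.Agent.H17.GP.Rl
import Pool.Agent.H17.Omega.CtmD

/-!
# MP_66e4cf_lc: codes of conditions inside the model
-/

set_option autoImplicit false
set_option linter.unusedVariables false
set_option linter.unusedSectionVars false
set_option linter.unusedSimpArgs false
set_option linter.unreachableTactic false
set_option linter.unusedTactic false

universe u

open Pool.Agent.H17.Omega Pool.Agent.H17.Omega.CTM Pool.Agent.H52.GX Pool.Agent.H52.GC Pool.Agent.H83.GP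

namespace Pool.Agent.H52.GP

variable {M : Set ZFSet.{u}}

/-- the code of a binary relation between natural numbers -/
noncomputable def r2z (r : ℕ → ℕ → Prop) : ZFSet.{u} :=
  ZFSet.range (fun x : {x : ℕ × ℕ // r x.1 x.2} => ZFSet.pair (natZ x.1.1) (natZ x.1.2))

theorem mem_r2z {r : ℕ → ℕ → Prop} {z : ZFSet.{u}} :
    z ∈ r2z r ↔ ∃ a b, r a b ∧ z = ZFSet.pair (natZ a) (natZ b) := by
  rw [r2z, ZFSet.mem_range]
  constructor
  · rintro ⟨⟨⟨a, b⟩, h⟩, rfl⟩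
    exact ⟨a, b, h, rfl⟩
  · rintro ⟨a, b, h, rfl⟩
    exact ⟨⟨(a, b), h⟩, rfl⟩

/-- the code of a ternary relation between natural numbers -/
noncomputable def r3z (r : ℕ → ℕ → ℕ → Prop) : ZFSet.{u} :=
  ZFSet.range (fun x : {x : ℕ × ℕ × ℕ // r x.1 x.2.1 x.2.2} =>
    ZFSet.pair (natZ x.1.1) (ZFSet.pair (natZ x.1.2.1) (natZ x.1.2.2)))

theorem mem_r3z {r : ℕ → ℕ → ℕ → Prop} {z : ZFSet.{u}} :
    z ∈ r3z r ↔ ∃ a b d, r a b d ∧ z = ZFSet.pair (natZ a) (ZFSet.pair (natZ b) (natZ d)) := by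
  rw [r3z, ZFSet.mem_range]
  constructor
  · rintro ⟨⟨⟨a, b, d⟩, h⟩, rfl⟩
    exact ⟨a, b, d, h, rfl⟩
  · rintro ⟨a, b, d, h, rfl⟩
    exact ⟨⟨(a, b, d), h⟩, rfl⟩

theorem pair_mem_r2z {r : ℕ → ℕ → Prop} {a b : ℕ} : ZFSet.pair (natZ.{u} a) (natZ b) ∈ r2z r ↔ r a b := by
  rw [mem_r2z]
  constructor
  · rintro ⟨a', b', h, h1⟩
    rw [ZFSet.pair_inj, natZ_inj, natZ_inj] at h1
    rw [h1.1, h1.2]; exact h
  · intro h; exact ⟨a, b, h, rfl⟩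

theorem pair_mem_r3z {r : ℕ → ℕ → ℕ → Prop} {a b d : ℕ} :
    ZFSet.pair (natZ.{u} a) (ZFSet.pair (natZ b) (natZ d)) ∈ r3z r ↔ r a b d := by
  rw [mem_r3z]
  constructor
  · rintro ⟨a', b', d', h, h1⟩
    rw [ZFSet.pair_inj, ZFSet.pair_inj, natZ_inj, natZ_inj, natZ_inj] at h1
    rw [h1.1, h1.2.1, h1.2.2]; exact h
  · intro h; exact ⟨a, b, d, h, rfl⟩

theorem r2_eq {r : ℕ → ℕ → Prop} {a b : ℕ} : r2 r (Nat.pair a b) = 0 ↔ r a b := by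
  unfold r2
  split_ifs with h
  · rw [Nat.unpair_pair] at h
    exact ⟨fun _ => h, fun _ => rfl⟩
  · rw [Nat.unpair_pair] at h
    exact ⟨fun h1 => h1.elim, fun h1 => (h h1).elim⟩

theorem r3_eq {r : ℕ → ℕ → ℕ → Prop} {a b d : ℕ} : r3 r (Nat.pair a (Nat.pair b d)) = 0 ↔ r a b d := by
  unfold r3
  split_ifs with h
  · rw [Nat.unpair_pair, Nat.unpair_pair] at h
    exact ⟨fun _ => h, fun _ => rfl⟩
  · rw [Nat.unpair_pair, Nat.unpair_pair] at h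
    exact ⟨fun h1 => h1.elim, fun h1 => (h h1).elim⟩

theorem r2z_mem (hM : CTM M) {r : ℕ → ℕ → Prop} (h : r2 r ∈ Pool.Agent.H17.GP.Rl M) : r2z r ∈ M := by
  obtain ⟨b, hb, hb'⟩ := hM.exists_sep (P := fun z => ∃ x y : M, z.1 = ZFSet.pair x.1 y.1 ∧
    r2 r (Nat.pair (natD x.1) (natD y.1)) = 0) (Dfn.ex (Dfn.ex (Dfn.and (Dfn.isPair (DT.var _) (DT.var _) (DT.var _))
      (Dfn.eqN (DN.app (DR.const h) (DN.pair (DN.var _) (DN.var _))) (DN.const 0)))))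
    (hM.prod_mem hM.omZ_mem hM.omZ_mem)
  have : r2z r = b := by
    ext z
    rw [mem_r2z, hb']
    constructor
    · rintro ⟨a, d, h1, rfl⟩
      refine ⟨?_, hM.pair_mem (hM.natZ_mem_N _) (hM.natZ_mem_N _), nz hM a, nz hM d, rfl, ?_⟩
      · rw [ZFSet.pair_mem_prod]; exact ⟨natZ_mem_omZ _, natZ_mem_omZ _⟩
      · simp only [nz, natD_natZ]; exact r2_eq.2 h1
    · rintro ⟨h1, _, x, y, rfl, h2⟩
      rw [ZFSet.pair_mem_prod] at h1
      obtain ⟨i, hi⟩ := mem_omZ.1 h1.1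
      obtain ⟨j, hj⟩ := mem_omZ.1 h1.2
      rw [hi, hj] at h2 ⊢
      simp only [natD_natZ] at h2
      exact ⟨i, j, r2_eq.1 h2, rfl⟩
  rw [this]; exact hb

theorem r3z_mem (hM : CTM M) {r : ℕ → ℕ → ℕ → Prop} (h : r3 r ∈ Pool.Agent.H17.GP.Rl M) : r3z r ∈ M := by
  obtain ⟨b, hb, hb'⟩ := hM.exists_sep (P := fun z => ∃ x w y v : M, z.1 = ZFSet.pair x.1 w.1 ∧
    w.1 = ZFSet.pair y.1 v.1 ∧ r3 r (Nat.pair (natD x.1) (Nat.pair (natD y.1) (natD v.1))) = 0)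
    (Dfn.ex (Dfn.ex (Dfn.ex (Dfn.ex (Dfn.and (Dfn.isPair (DT.var _) (DT.var _) (DT.var _))
      (Dfn.and (Dfn.isPair (DT.var _) (DT.var _) (DT.var _))
      (Dfn.eqN (DN.app (DR.const h) (DN.pair (DN.var _) (DN.pair (DN.var _) (DN.var _)))) (DN.const 0))))))))
    (hM.prod_mem hM.omZ_mem (hM.prod_mem hM.omZ_mem hM.omZ_mem))
  have : r3z r = b := by
    ext z
    rw [mem_r3z, hb']
    constructor
    · rintro ⟨a, d, e, h1, rfl⟩
      refine ⟨?_, hM.pair_mem (hM.natZ_mem_N _) (hM.pair_mem (hM.natZ_mem_N _) (hM.natZ_mem_N _)), nz hM a,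
        ⟨_, hM.pair_mem (hM.natZ_mem_N d) (hM.natZ_mem_N e)⟩, nz hM d, nz hM e, rfl, rfl, ?_⟩
      · rw [ZFSet.pair_mem_prod, ZFSet.pair_mem_prod]; exact ⟨natZ_mem_omZ _, natZ_mem_omZ _, natZ_mem_omZ _⟩
      · simp only [nz, natD_natZ]; exact r3_eq.2 h1
    · rintro ⟨h1, _, x, w, y, v, rfl, h3, h2⟩
      rw [h3, ZFSet.pair_mem_prod, ZFSet.pair_mem_prod] at h1
      obtain ⟨i, hi⟩ := mem_omZ.1 h1.1
      obtain ⟨j, hj⟩ := mem_omZ.1 h1.2.1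
      obtain ⟨k, hk⟩ := mem_omZ.1 h1.2.2
      rw [h3]
      rw [hi, hj, hk] at h2 ⊢
      simp only [natD_natZ] at h2
      exact ⟨i, j, k, r3_eq.1 h2, rfl⟩
  rw [this]; exact hb

theorem exists_fs {a : ZFSet.{u}} (h : FinZ a) : ∃ s : Finset ZFSet.{u}, a = fs s := by
  obtain ⟨s, hs⟩ := h
  exact ⟨s, ZFSet.ext fun z => (hs z).trans mem_fs.symm⟩

theorem finZ_fs (s : Finset ZFSet.{u}) : FinZ (fs s) := ⟨s, fun z => mem_fs⟩

theorem fs_mem (hM : CTM M) {s : Finset ZFSet.{u}} (h : ∀ z ∈ s, z ∈ M) : fs s ∈ M :=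
  FinZ.mem (X := fs s) hM (finZ_fs s) (fun z hz => h z (mem_fs.1 hz))

theorem fs_empty : fs (∅ : Finset ZFSet.{u}) = ∅ := by
  rw [ZFSet.eq_empty]
  intro z hz
  exact absurd (mem_fs.1 hz) (Finset.notMem_empty z)

/-! ### Cardinality -/

/-- `a` has at most `n` elements (in the model) -/
def CardC (a n : M) : Prop := ∃ e : M, (∀ k y y' : M, ZFSet.pair k.1 y.1 ∈ e.1 → ZFSet.pair k.1 y'.1 ∈ e.1 → y = y') ∧
  ∀ x : M, x.1 ∈ a.1 → ∃ k : M, k.1 ∈ n.1 ∧ ZFSet.pair k.1 x.1 ∈ e.1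

theorem CardC.dfn (hM : CTM M) : hM.Dfn (fun v : Fin 2 → M => CardC (v 0) (v 1)) := by
  unfold CardC
  (repeat' first
      | exact DT.var _ | exact DT.last | exact DT.const _ | assumption
      | refine Dfn.pairMem ?_ ?_ ?_ | refine Dfn.isPair ?_ ?_ ?_ | refine Dfn.mem ?_ ?_
      | refine Dfn.eqv ?_ ?_ | refine Dfn.eq ?_ ?_ | refine Dfn.subset ?_ ?_
      | refine Dfn.isEmpty ?_ | refine Dfn.isTrans ?_ | refine Dfn.isOrd ?_ | refine Dfn.isNat ?_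
      | refine Dfn.and ?_ ?_ | refine Dfn.or ?_ ?_ | refine Dfn.iff ?_ ?_ | refine Dfn.not ?_
      | refine Dfn.imp ?_ ?_ | refine Dfn.all ?_ | refine Dfn.ex ?_ | exact Dfn.false')

theorem cardC_iff (hM : CTM M) {s : Finset ZFSet.{u}} {a n : M} (ha : a.1 = fs s) {k : ℕ} (hn : n.1 = natZ k) :
    CardC a n ↔ s.card ≤ k := by
  classical
  constructor
  · rintro ⟨e, he, h⟩
    have hex : ∀ x ∈ s, ∃ i < k, ZFSet.pair (natZ i) x ∈ e.1 := by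
      intro x hx
      have hxa : x ∈ a.1 := by rw [ha]; exact mem_fs.2 hx
      obtain ⟨i, hi, hi'⟩ := h ⟨x, hM.mem_of_mem a.2 hxa⟩ hxa
      rw [hn] at hi
      obtain ⟨j, hj, hij⟩ := mem_natZ.1 hi
      exact ⟨j, hj, by rw [← hij]; exact hi'⟩
    choose! f hf hf' using hex
    have := Finset.card_le_card_of_injOn (s := s) (t := Finset.range k) f (fun x hx => by
      simp only [Finset.coe_range, Set.mem_Iio]; exact hf x hx) (by
      intro x hx y hy hxy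
      have h1 := hf' x hx
      have h2 := hf' y hy
      rw [← hxy] at h2
      have h3 := he ⟨_, (hM.of_pair_mem (hM.mem_of_mem e.2 h1)).1⟩ ⟨x, (hM.of_pair_mem (hM.mem_of_mem e.2 h1)).2⟩
        ⟨y, (hM.of_pair_mem (hM.mem_of_mem e.2 h2)).2⟩ h1 h2
      exact congrArg Subtype.val h3)
    rw [Finset.card_range] at this
    exact this
  · intro hk
    let l := s.toList
    have hl : l.length = s.card := Finset.length_toList s
    let gg : ℕ → ZFSet.{u} := fun n => l.getD n ∅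
    have hgM : ∀ n, gg n ∈ M := by
      intro n
      by_cases hn : n < l.length
      · have : gg n = l[n] := List.getD_eq_getElem _ _ hn
        rw [this]
        have h1 : l[n] ∈ s := by rw [← Finset.mem_toList]; exact List.getElem_mem hn
        exact hM.mem_of_mem a.2 (by rw [ha]; exact mem_fs.2 h1)
      · have : gg n = ∅ := List.getD_eq_default _ _ (not_lt.1 hn)
        rw [this]; exact hM.empty_mem
    obtain ⟨e, he, he'⟩ := hM.finite_seq_mem (g := gg) hgM l.length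
    refine ⟨⟨e, he⟩, ?_, ?_⟩
    · intro k y y' h1 h2
      obtain ⟨i, hi, h3⟩ := (he' _).1 h1
      obtain ⟨j, hj, h4⟩ := (he' _).1 h2
      rw [ZFSet.pair_inj] at h3 h4
      have : i = j := by rw [← natZ_inj.{u}, ← h3.1, ← h4.1]
      subst this
      exact Subtype.ext (h3.2.trans h4.2.symm)
    · intro x hx
      have h1 : x.1 ∈ l := by rw [Finset.mem_toList]; rw [ha] at hx; exact mem_fs.1 hx
      obtain ⟨i, hi, hix⟩ := List.getElem_of_mem h1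
      refine ⟨nz hM i, ?_, (he' _).2 ⟨i, hi, ?_⟩⟩
      · rw [hn]; exact natZ_mem.2 (by omega)
      · have : gg i = l[i] := List.getD_eq_getElem _ _ hi
        rw [this, hix]; rfl

theorem finZ_iff (hM : CTM M) {a : M} : FinZ a.1 ↔ ∃ n : M, n.1 ∈ (⟨omZ, hM.omZ_mem⟩ : M).1 ∧ CardC a n := by
  constructor
  · intro h
    obtain ⟨s, hs⟩ := exists_fs h
    exact ⟨nz hM s.card, natZ_mem_omZ _, (cardC_iff hM hs rfl).2 le_rfl⟩
  · classical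
    rintro ⟨n, hn, e, he, h⟩
    obtain ⟨m, hm⟩ := mem_omZ.1 hn
    have hex : ∀ k : ℕ, ∃ y : ZFSet.{u}, ∀ y', ZFSet.pair (natZ k) y' ∈ e.1 → y' = y := by
      intro k
      by_cases h1 : ∃ y, ZFSet.pair (natZ k) y ∈ e.1
      · obtain ⟨y, hy⟩ := h1
        refine ⟨y, fun y' hy' => ?_⟩
        have h2 := hM.of_pair_mem (hM.mem_of_mem e.2 hy)
        have h3 := hM.of_pair_mem (hM.mem_of_mem e.2 hy')
        exact congrArg Subtype.val (he (nz hM k) ⟨y', h3.2⟩ ⟨y, h2.2⟩ hy' hy)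
      · exact ⟨∅, fun y' hy' => (h1 ⟨y', hy'⟩).elim⟩
    choose y hy using hex
    refine ⟨((Finset.range m).image y).filter (fun z => z ∈ a.1), fun z => ?_⟩
    rw [Finset.mem_filter, Finset.mem_image]
    constructor
    · intro hz
      refine ⟨?_, hz⟩
      obtain ⟨k, hk, hk'⟩ := h ⟨z, hM.mem_of_mem a.2 hz⟩ hz
      rw [hm] at hk
      obtain ⟨i, hi, hki⟩ := mem_natZ.1 hk
      rw [hki] at hk'
      exact ⟨i, Finset.mem_range.2 hi, (hy i _ hk').symm⟩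
    · exact fun h => h.2

theorem FinZ.dfn (hM : CTM M) : hM.Dfn (fun v : Fin 1 → M => FinZ (v 0).1) := by
  refine Dfn.congr (P := fun v : Fin 1 → M => ∃ n : M, n.1 ∈ (⟨omZ, hM.omZ_mem⟩ : M).1 ∧ CardC (v 0) n)
    (fun v => (finZ_iff hM).symm) ?_
  have h := CardC.dfn hM
  (repeat' first
      | exact DT.var _ | exact DT.last | exact DT.const _ | assumption
      | refine Dfn.pairMem ?_ ?_ ?_ | refine Dfn.isPair ?_ ?_ ?_ | refine Dfn.mem ?_ ?_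
      | refine Dfn.eqv ?_ ?_ | refine Dfn.eq ?_ ?_ | refine Dfn.subset ?_ ?_
      | refine Dfn.isEmpty ?_ | refine Dfn.isTrans ?_ | refine Dfn.isOrd ?_ | refine Dfn.isNat ?_
      | refine Dfn.and ?_ ?_ | refine Dfn.or ?_ ?_ | refine Dfn.iff ?_ ?_ | refine Dfn.not ?_
      | refine Dfn.imp ?_ ?_ | refine Dfn.all ?_ | refine Dfn.ex ?_ | exact Dfn.false')

/-! ### Codes of conditions -/

theorem pair_mem_cd {p : Cn.{u}} {ξ : Ordinal.{u}} {d : ZFSet.{u}} : ZFSet.pair ξ.toZFSet d ∈ cd p ↔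
    p.f ξ ≠ (0, ∅) ∧ d = ZFSet.pair (natZ (p.f ξ).1) (fs (p.f ξ).2) := by
  rw [mem_cd]
  constructor
  · rintro ⟨η, h1, h2⟩
    rw [ZFSet.pair_inj, toZFSet_inj] at h2
    rw [h2.1]; exact ⟨h1, h2.2⟩
  · rintro ⟨h1, h2⟩
    exact ⟨ξ, h1, by rw [h2]⟩

theorem cd_inj {p q : Cn.{u}} (h : cd p = cd q) : p = q := by
  apply Cn.ext'
  intro ξ
  by_cases h1 : p.f ξ = (0, ∅)
  · by_cases h2 : q.f ξ = (0, ∅)
    · rw [h1, h2]
    · have h3 : ZFSet.pair ξ.toZFSet (ZFSet.pair (natZ (q.f ξ).1) (fs (q.f ξ).2)) ∈ cd q := pair_mem_cd.2 ⟨h2, rfl⟩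
      rw [← h, pair_mem_cd] at h3
      exact (h3.1 h1).elim
  · have h3 : ZFSet.pair ξ.toZFSet (ZFSet.pair (natZ (p.f ξ).1) (fs (p.f ξ).2)) ∈ cd p := pair_mem_cd.2 ⟨h1, rfl⟩
    rw [h, pair_mem_cd, ZFSet.pair_inj, natZ_inj] at h3
    exact Prod.ext h3.2.1 (fs_inj h3.2.2)

/-- `z` is the code of a condition -/
def IsC (hM : CTM M) (z : M) : Prop := FinZ z.1 ∧ (∀ w : M, w.1 ∈ z.1 → ∃ η d m a : M, w.1 = ZFSet.pair η.1 d.1 ∧
    d.1 = ZFSet.pair m.1 a.1 ∧ η.1.IsOrdinal ∧ m.1 ∈ (⟨omZ, hM.omZ_mem⟩ : M).1 ∧ FinZ a.1 ∧ ¬ (m.1 = ∅ ∧ a.1 = ∅)) ∧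
  ∀ η d d' : M, ZFSet.pair η.1 d.1 ∈ z.1 → ZFSet.pair η.1 d'.1 ∈ z.1 → d = d'

theorem IsC.dfn (hM : CTM M) : hM.Dfn (fun v : Fin 1 → M => IsC hM (v 0)) := by
  have h := FinZ.dfn hM
  unfold IsC
  refine Dfn.and h ?_
  (repeat' first
      | exact DT.var _ | exact DT.last | exact DT.const _ | assumption
      | refine Dfn.pairMem ?_ ?_ ?_ | refine Dfn.isPair ?_ ?_ ?_ | refine Dfn.mem ?_ ?_
      | refine Dfn.eqv ?_ ?_ | refine Dfn.eq ?_ ?_ | refine Dfn.subset ?_ ?_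
      | refine Dfn.isEmpty ?_ | refine Dfn.isTrans ?_ | refine Dfn.isOrd ?_ | refine Dfn.isNat ?_
      | refine Dfn.and ?_ ?_ | refine Dfn.or ?_ ?_ | refine Dfn.iff ?_ ?_ | refine Dfn.not ?_
      | refine Dfn.imp ?_ ?_ | refine Dfn.all ?_ | refine Dfn.ex ?_ | exact Dfn.false')
  exact Dfn.subst1 (P := fun x : M => FinZ x.1) h (DT.var _)

theorem cd_mem_of (hM : CTM M) {p : Cn.{u}} (ho : ∀ ξ, p.f ξ ≠ (0, ∅) → ξ.toZFSet ∈ M)
    (hn : ∀ ξ, ∀ T ∈ (p.f ξ).2, T ∈ M) : cd p ∈ M := by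
  classical
  obtain ⟨s, hs⟩ : ∃ s : Finset ZFSet.{u}, ∀ z, z ∈ cd p ↔ z ∈ s := by
    refine ⟨p.st_finite.toFinset, fun z => ?_⟩
    rw [Set.Finite.mem_toFinset, mem_cd]; rfl
  refine FinZ.mem (X := cd p) hM ⟨s, hs⟩ ?_
  intro z hz
  obtain ⟨ξ, h1, rfl⟩ := mem_cd.1 hz
  exact hM.pair_mem (ho ξ h1) (hM.pair_mem (hM.natZ_mem_N _) (fs_mem hM (hn ξ)))

theorem of_cd_mem (hM : CTM M) {p : Cn.{u}} (h : cd p ∈ M) : (∀ ξ, p.f ξ ≠ (0, ∅) → ξ.toZFSet ∈ M) ∧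
    ∀ ξ, ∀ T ∈ (p.f ξ).2, T ∈ M := by
  constructor
  · intro ξ hξ
    exact (hM.of_pair_mem (hM.mem_of_mem h (pair_mem_cd.2 ⟨hξ, rfl⟩))).1
  · intro ξ T hT
    have hξ : p.f ξ ≠ (0, ∅) := by
      intro h0
      rw [h0] at hT
      exact absurd hT (Finset.notMem_empty _)
    have h1 := (hM.of_pair_mem (hM.mem_of_mem h (pair_mem_cd.2 ⟨hξ, rfl⟩))).2
    exact hM.mem_of_mem (hM.of_pair_mem h1).2 (mem_fs.2 hT)

theorem isC_iff (hM : CTM M) {z : M} : IsC hM z ↔ ∃ p : Cn.{u}, z.1 = cd p := by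
  classical
  constructor
  · rintro ⟨h1, h2, h3⟩
    have hval : ∀ w : ZFSet.{u}, w ∈ z.1 → ∃ (ξ : Ordinal.{u}) (m : ℕ) (a : Finset ZFSet.{u}), (m, a) ≠ (0, ∅) ∧
        w = ZFSet.pair ξ.toZFSet (ZFSet.pair (natZ m) (fs a)) := by
      intro w hw
      obtain ⟨η, d, m, a, e1, e2, h4, h5, h6, h7⟩ := h2 ⟨w, hM.mem_of_mem z.2 hw⟩ hw
      obtain ⟨k, hk⟩ := mem_omZ.1 h5
      obtain ⟨s, hs⟩ := exists_fs h6
      have hξ := h4.toZFSet_rank_eq.symm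
      refine ⟨η.1.rank, k, s, ?_, ?_⟩
      · intro h8
        rw [Prod.mk.injEq] at h8
        apply h7
        rw [hk, hs, h8.1, h8.2]
        exact ⟨rfl, fs_empty⟩
      · have e1 : w = ZFSet.pair η.1 d.1 := e1
        rw [e1, e2, hk, hs, ← hξ]
    let Q : Ordinal.{u} → ℕ × Finset ZFSet.{u} → Prop := fun ξ d =>
      d ≠ (0, ∅) ∧ ZFSet.pair ξ.toZFSet (ZFSet.pair (natZ d.1) (fs d.2)) ∈ z.1
    let f : Ordinal.{u} → ℕ × Finset ZFSet.{u} := fun ξ => if h : ∃ d, Q ξ d then h.choose else (0, ∅)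
    have hf : ∀ ξ, (∃ d, Q ξ d) → Q ξ (f ξ) := by
      intro ξ h
      simp only [f, dif_pos h]
      exact h.choose_spec
    have hf0 : ∀ ξ, f ξ ≠ (0, ∅) → Q ξ (f ξ) := by
      intro ξ h
      apply hf
      by_contra h4
      apply h
      simp only [f, dif_neg h4]
    have hu : ∀ ξ d d', Q ξ d → Q ξ d' → d = d' := by
      rintro ξ d d' ⟨_, h4⟩ ⟨_, h5⟩
      have m4 := hM.of_pair_mem (hM.mem_of_mem z.2 h4)
      have m5 := hM.of_pair_mem (hM.mem_of_mem z.2 h5)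
      have h6 := h3 ⟨_, m4.1⟩ ⟨_, m4.2⟩ ⟨_, m5.2⟩ h4 h5
      have h7 := congrArg Subtype.val h6
      simp only at h7
      rw [ZFSet.pair_inj, natZ_inj] at h7
      exact Prod.ext h7.1 (fs_inj h7.2)
    obtain ⟨s, hs⟩ := h1
    have hfin : {ξ | f ξ ≠ (0, ∅)}.Finite := by
      refine Set.Finite.of_finite_image (f := fun ξ => ZFSet.pair ξ.toZFSet (ZFSet.pair (natZ (f ξ).1) (fs (f ξ).2)))
        (s.finite_toSet.subset ?_) ?_
      · rintro _ ⟨ξ, hξ, rfl⟩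
        exact (hs _).1 (hf0 ξ hξ).2
      · intro ξ _ η _ h
        have h := (ZFSet.pair_inj.1 h).1
        exact toZFSet_inj.1 h
    refine ⟨⟨f, hfin⟩, ?_⟩
    ext w
    rw [mem_cd]
    constructor
    · intro hw
      obtain ⟨ξ, m, a, h4, rfl⟩ := hval w hw
      have h5 : Q ξ (m, a) := ⟨h4, hw⟩
      have h6 := hu ξ _ _ (hf ξ ⟨_, h5⟩) h5
      refine ⟨ξ, ?_, ?_⟩
      · show f ξ ≠ _
        rw [h6]; exact h4
      · show _ = ZFSet.pair ξ.toZFSet (ZFSet.pair (natZ (f ξ).1) (fs (f ξ).2))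
        rw [h6]
    · rintro ⟨ξ, h4, rfl⟩
      exact (hf0 ξ h4).2
  · rintro ⟨p, hp⟩
    refine ⟨?_, ?_, ?_⟩
    · rw [hp]
      refine ⟨p.st_finite.toFinset, fun z => ?_⟩
      rw [Set.Finite.mem_toFinset, mem_cd]; rfl
    · intro w hw
      rw [hp] at hw
      obtain ⟨ξ, h1, h2⟩ := mem_cd.1 hw
      have hwM := w.2
      rw [h2] at hwM
      have m1 := hM.of_pair_mem hwM
      have m2 := hM.of_pair_mem m1.2
      refine ⟨⟨_, m1.1⟩, ⟨_, m1.2⟩, ⟨_, m2.1⟩, ⟨_, m2.2⟩, h2, rfl, ZFSet.isOrdinal_toZFSet _, natZ_mem_omZ _,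
        finZ_fs _, ?_⟩
      rintro ⟨h3, h4⟩
      apply h1
      have h3 : natZ.{u} (p.f ξ).1 = natZ 0 := h3
      have h4 : fs (p.f ξ).2 = ∅ := h4
      rw [natZ_inj] at h3
      rw [← fs_empty] at h4
      exact Prod.ext h3 (fs_inj h4)
    · intro η d d' h1 h2
      rw [hp] at h1 h2
      obtain ⟨ξ, h3, h4⟩ := mem_cd.1 h1
      rw [ZFSet.pair_inj] at h4
      rw [h4.1, pair_mem_cd] at h2
      exact Subtype.ext (h4.2.trans h2.2.symm)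

/-! ### Restriction and order -/

/-- `z'` is the restriction of `z` to `η` -/
def ResC (z η z' : M) : Prop := ∀ w : M, w.1 ∈ z'.1 ↔ (w.1 ∈ z.1 ∧ ∃ ζ d : M, w.1 = ZFSet.pair ζ.1 d.1 ∧ ζ.1 ∈ η.1)

theorem ResC.dfn (hM : CTM M) : hM.Dfn (fun v : Fin 3 → M => ResC (v 0) (v 1) (v 2)) := by
  unfold ResC
  (repeat' first
      | exact DT.var _ | exact DT.last | exact DT.const _ | assumption
      | refine Dfn.pairMem ?_ ?_ ?_ | refine Dfn.isPair ?_ ?_ ?_ | refine Dfn.mem ?_ ?_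
      | refine Dfn.eqv ?_ ?_ | refine Dfn.eq ?_ ?_ | refine Dfn.subset ?_ ?_
      | refine Dfn.isEmpty ?_ | refine Dfn.isTrans ?_ | refine Dfn.isOrd ?_ | refine Dfn.isNat ?_
      | refine Dfn.and ?_ ?_ | refine Dfn.or ?_ ?_ | refine Dfn.iff ?_ ?_ | refine Dfn.not ?_
      | refine Dfn.imp ?_ ?_ | refine Dfn.all ?_ | refine Dfn.ex ?_ | exact Dfn.false')

theorem mem_cd_res {p : Cn.{u}} {ξ : Ordinal.{u}} {z : ZFSet.{u}} : z ∈ cd (p.res ξ) ↔ ∃ η < ξ, p.f η ≠ (0, ∅) ∧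
    z = ZFSet.pair η.toZFSet (ZFSet.pair (natZ (p.f η).1) (fs (p.f η).2)) := by
  rw [mem_cd]
  constructor
  · rintro ⟨η, h1, h2⟩
    simp only [Cn.res] at h1 h2
    split_ifs at h1 h2 with h3
    · exact ⟨η, h3, h1, h2⟩
    · exact (h1 rfl).elim
  · rintro ⟨η, h3, h1, h2⟩
    refine ⟨η, ?_, ?_⟩
    · simp only [Cn.res, if_pos h3]; exact h1
    · simp only [Cn.res, if_pos h3]; exact h2

theorem resC_iff (hM : CTM M) {z η z' : M} {p : Cn.{u}} {ξ : Ordinal.{u}} (hz : z.1 = cd p)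
    (hη : η.1 = ξ.toZFSet) : ResC z η z' ↔ z'.1 = cd (p.res ξ) := by
  have key : ∀ w : M, (w.1 ∈ z.1 ∧ ∃ ζ d : M, w.1 = ZFSet.pair ζ.1 d.1 ∧ ζ.1 ∈ η.1) ↔ w.1 ∈ cd (p.res ξ) := by
    intro w
    rw [mem_cd_res, hz]
    constructor
    · rintro ⟨h1, ζ, d, h2, h3⟩
      obtain ⟨θ, h4, h5⟩ := mem_cd.1 h1
      rw [hη] at h3
      have h6 := h2.symm.trans h5
      rw [ZFSet.pair_inj] at h6
      rw [h6.1, Ordinal.toZFSet_mem_toZFSet_iff] at h3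
      exact ⟨θ, h3, h4, h5⟩
    · rintro ⟨θ, h3, h4, h5⟩
      refine ⟨mem_cd.2 ⟨θ, h4, h5⟩, ?_⟩
      have hw := w.2
      rw [h5] at hw
      exact ⟨⟨_, (hM.of_pair_mem hw).1⟩, ⟨_, (hM.of_pair_mem hw).2⟩, h5, by
        rw [hη]; exact Ordinal.toZFSet_mem_toZFSet_iff.2 h3⟩
  constructor
  · intro h
    ext w
    constructor
    · intro hw
      exact (key ⟨w, hM.mem_of_mem z'.2 hw⟩).1 ((h _).1 hw)
    · intro hw
      have hwz : w ∈ z.1 := by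
        obtain ⟨θ, _, h4, h5⟩ := mem_cd_res.1 hw
        rw [hz]; exact mem_cd.2 ⟨θ, h4, h5⟩
      exact (h ⟨w, hM.mem_of_mem z.2 hwz⟩).2 ((key _).2 hw)
  · intro h w
    rw [h]; exact (key w).symm

/-- the order of codes of conditions -/
def LeC (rle z z' : M) : Prop := ∀ η d m a : M, ZFSet.pair η.1 d.1 ∈ z'.1 → d.1 = ZFSet.pair m.1 a.1 →
  ∃ d' m' a' : M, ZFSet.pair η.1 d'.1 ∈ z.1 ∧ d'.1 = ZFSet.pair m'.1 a'.1 ∧ ZFSet.pair m'.1 m.1 ∈ rle.1 ∧ a.1 ⊆ a'.1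

theorem LeC.dfn (hM : CTM M) : hM.Dfn (fun v : Fin 3 → M => LeC (v 0) (v 1) (v 2)) := by
  unfold LeC
  (repeat' first
      | exact DT.var _ | exact DT.last | exact DT.const _ | assumption
      | refine Dfn.pairMem ?_ ?_ ?_ | refine Dfn.isPair ?_ ?_ ?_ | refine Dfn.mem ?_ ?_
      | refine Dfn.eqv ?_ ?_ | refine Dfn.eq ?_ ?_ | refine Dfn.subset ?_ ?_
      | refine Dfn.isEmpty ?_ | refine Dfn.isTrans ?_ | refine Dfn.isOrd ?_ | refine Dfn.isNat ?_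
      | refine Dfn.and ?_ ?_ | refine Dfn.or ?_ ?_ | refine Dfn.iff ?_ ?_ | refine Dfn.not ?_
      | refine Dfn.imp ?_ ?_ | refine Dfn.all ?_ | refine Dfn.ex ?_ | exact Dfn.false')

theorem fs_subset {a b : Finset ZFSet.{u}} : fs a ⊆ fs b ↔ a ⊆ b :=
  ⟨fun h z hz => mem_fs.1 (h (mem_fs.2 hz)), fun h z hz => mem_fs.2 (h (mem_fs.1 hz))⟩

theorem leC_iff (hM : CTM M) {t : Tm} (ht : t.Ax) {rle z z' : M} (hr : rle.1 = r2z t.le) {p q : Cn.{u}}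
    (hz : z.1 = cd p) (hz' : z'.1 = cd q) : LeC rle z z' ↔ p.Le t q := by
  constructor
  · intro h ξ
    by_cases h1 : q.f ξ = (0, ∅)
    · rw [h1]; exact ⟨ht.top _, Finset.empty_subset _⟩
    · have h2 : ZFSet.pair ξ.toZFSet (ZFSet.pair (natZ (q.f ξ).1) (fs (q.f ξ).2)) ∈ z'.1 := by
        rw [hz']; exact pair_mem_cd.2 ⟨h1, rfl⟩
      have m1 := hM.of_pair_mem (hM.mem_of_mem z'.2 h2)
      have m2 := hM.of_pair_mem m1.2
      obtain ⟨d', m', a', h3, h4, h5, h6⟩ := h ⟨_, m1.1⟩ ⟨_, m1.2⟩ ⟨_, m2.1⟩ ⟨_, m2.2⟩ h2 rfl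
      rw [hz] at h3
      obtain ⟨h7, h8⟩ := pair_mem_cd.1 h3
      rw [h4, ZFSet.pair_inj] at h8
      rw [h8.1, hr] at h5
      rw [h8.2] at h6
      exact ⟨pair_mem_r2z.1 h5, fs_subset.1 h6⟩
  · intro h η d m a h1 h2
    rw [hz'] at h1
    obtain ⟨ξ, h3, h4⟩ := mem_cd.1 h1
    rw [h2, ZFSet.pair_inj, ZFSet.pair_inj] at h4
    have h5 : p.f ξ ≠ (0, ∅) := by
      intro h6
      apply h3
      have h7 := h ξ
      rw [h6] at h7
      have h8 : (q.f ξ).1 = 0 := ht.anti _ _ (ht.top _) h7.1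
      have h9 : (q.f ξ).2 = ∅ := Finset.subset_empty.1 h7.2
      exact Prod.ext h8 h9
    have h6 : ZFSet.pair ξ.toZFSet (ZFSet.pair (natZ (p.f ξ).1) (fs (p.f ξ).2)) ∈ z.1 := by
      rw [hz]; exact pair_mem_cd.2 ⟨h5, rfl⟩
    have m1 := hM.of_pair_mem (hM.mem_of_mem z.2 h6)
    have m2 := hM.of_pair_mem m1.2
    refine ⟨⟨_, m1.2⟩, ⟨_, m2.1⟩, ⟨_, m2.2⟩, ?_, rfl, ?_, ?_⟩
    · rw [h4.1]; exact h6
    · rw [h4.2.1, hr]; exact pair_mem_r2z.2 (h ξ).1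
    · rw [h4.2.2]; exact fs_subset.2 (h ξ).2

end Pool.Agent.H52.GP
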