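import Pool.Agent.H52.GP.Code

/-!
# MP_66e4cf_lc: the iteration is an element of the model
-/

set_option autoImplicit false
set_option linter.unusedVariables false
set_option linter.unusedSectionVars false
set_option linter.unusedSimpArgs false
set_option linter.unreachableTactic false
set_option linter.unusedTactic false

universe u

open Pool.Agent.H17.Omega Pool.Agent.H17.Omega.CTM Pool.Agent.H52.GX Pool.Agent.H52.GC Pool.Agent.H83.GP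

namespace Pool.Agent.H52.GP

variable {M : Set ZFSet.{u}}

theorem Dfn.subst4 {hM : CTM M} {n : ℕ} {P : M → M → M → M → Prop}
    (h : hM.Dfn (fun v : Fin 4 → M => P (v 0) (v 1) (v 2) (v 3))) {a b c d : (Fin n → M) → M} (ha : hM.DT a)
    (hb : hM.DT b) (hc : hM.DT c) (hd : hM.DT d) : hM.Dfn (fun v => P (a v) (b v) (c v) (d v)) :=
  CTM.Dfn.substG h (t := ![a, b, c, d]) (by intro i; fin_cases i <;> assumption)

/-- `T` is a name of a real, for the set of conditions `S` (in the model) -/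
def NmC (hM : CTM M) (rle S T : M) : Prop :=
  (∀ w : M, w.1 ∈ T.1 → ∃ i j x p : M, i.1 ∈ (⟨omZ, hM.omZ_mem⟩ : M).1 ∧ j.1 ∈ (⟨omZ, hM.omZ_mem⟩ : M).1 ∧
    p.1 ∈ S.1 ∧ x.1 = ZFSet.pair i.1 j.1 ∧ w.1 = ZFSet.pair x.1 p.1) ∧
  (∀ i j j' x x' r : M, r.1 ∈ S.1 → x.1 = ZFSet.pair i.1 j.1 → x'.1 = ZFSet.pair i.1 j'.1 →
    ZFSet.pair x.1 r.1 ∈ T.1 → ZFSet.pair x'.1 r.1 ∈ T.1 → j = j') ∧
  (∀ i : M, i.1 ∈ (⟨omZ, hM.omZ_mem⟩ : M).1 → ∀ p : M, p.1 ∈ S.1 → ∃ q j x : M, q.1 ∈ S.1 ∧ LeC rle q p ∧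
    x.1 = ZFSet.pair i.1 j.1 ∧ ZFSet.pair x.1 q.1 ∈ T.1) ∧
  ∀ x p q : M, p.1 ∈ S.1 → q.1 ∈ S.1 → LeC rle q p → ZFSet.pair x.1 p.1 ∈ T.1 → ZFSet.pair x.1 q.1 ∈ T.1

theorem NmC.dfn (hM : CTM M) : hM.Dfn (fun v : Fin 3 → M => NmC hM (v 0) (v 1) (v 2)) := by
  have h := LeC.dfn hM
  unfold NmC
  (repeat' first
      | exact DT.var _ | exact DT.last | exact DT.const _ | assumption
      | refine Dfn.pairMem ?_ ?_ ?_ | refine Dfn.isPair ?_ ?_ ?_ | refine Dfn.mem ?_ ?_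
      | refine Dfn.eqv ?_ ?_ | refine Dfn.eq ?_ ?_ | refine Dfn.subset ?_ ?_
      | refine Dfn.isEmpty ?_ | refine Dfn.isTrans ?_ | refine Dfn.isOrd ?_ | refine Dfn.isNat ?_
      | refine Dfn.and ?_ ?_ | refine Dfn.or ?_ ?_ | refine Dfn.iff ?_ ?_ | refine Dfn.not ?_
      | refine Dfn.imp ?_ ?_ | refine Dfn.all ?_ | refine Dfn.ex ?_ | exact Dfn.false')
  all_goals exact Dfn.subst3 h (DT.var _) (DT.var _) (DT.var _)

/-- `S` is the set of the codes of the conditions in `SC`. -/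
def IsCode (S : ZFSet.{u}) (SC : Set Cn.{u}) : Prop := ∀ z, z ∈ S ↔ ∃ p ∈ SC, z = cd p

theorem IsCode.mem_iff {S : ZFSet.{u}} {SC : Set Cn.{u}} (h : IsCode S SC) {p : Cn.{u}} : cd p ∈ S ↔ p ∈ SC := by
  rw [h]
  constructor
  · rintro ⟨q, hq, h1⟩; rw [cd_inj h1]; exact hq
  · intro hp; exact ⟨p, hp, rfl⟩

theorem nmC_iff (hM : CTM M) {t : Tm} (ht : t.Ax) {rle S T : M} (hr : rle.1 = r2z t.le) {SC : Set Cn.{u}}
    (hS : IsCode S.1 SC) : NmC hM rle S T ↔ IsNm t SC T.1 := by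
  have hcM : ∀ p ∈ SC, cd p ∈ M := fun p hp => hM.mem_of_mem S.2 (hS.mem_iff.2 hp)
  have hpairM : ∀ i j : ℕ, ZFSet.pair (natZ.{u} i) (natZ j) ∈ M := fun i j =>
    hM.pair_mem (hM.natZ_mem_N _) (hM.natZ_mem_N _)
  constructor
  · rintro ⟨h1, h2, h3, h4⟩
    refine ⟨?_, ?_, ?_, ?_⟩
    · intro z hz
      obtain ⟨i, j, x, p, hi, hj, hp, hx, hw⟩ := h1 ⟨z, hM.mem_of_mem T.2 hz⟩ hz
      obtain ⟨i', hi'⟩ := mem_omZ.1 hi
      obtain ⟨j', hj'⟩ := mem_omZ.1 hj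
      obtain ⟨p', hp', hp2⟩ := (hS _).1 hp
      refine ⟨i', j', p', hp', ?_⟩
      have hw : z = ZFSet.pair x.1 p.1 := hw
      rw [hw, hx, hi', hj', hp2]
    · intro i j j' r hr' h5 h6
      have := h2 (nz hM i) (nz hM j) (nz hM j') ⟨_, hpairM i j⟩ ⟨_, hpairM i j'⟩ ⟨cd r, hcM r hr'⟩
        (hS.mem_iff.2 hr') rfl rfl h5 h6
      exact natZ_inj.1 (congrArg Subtype.val this)
    · intro i p hp
      obtain ⟨q, j, x, hq, hle, hx, hT⟩ := h3 (nz hM i) (natZ_mem_omZ i) ⟨cd p, hcM p hp⟩ (hS.mem_iff.2 hp)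
      obtain ⟨q', hq', hq2⟩ := (hS _).1 hq
      obtain ⟨i1, j1, x1, p1, hi1, hj1, hp1, hx1, hw1⟩ := h1 ⟨_, hM.mem_of_mem T.2 hT⟩ hT
      have hw1 : ZFSet.pair x.1 q.1 = ZFSet.pair x1.1 p1.1 := hw1
      rw [ZFSet.pair_inj] at hw1
      rw [hx, hx1, ZFSet.pair_inj] at hw1
      obtain ⟨j2, hj2⟩ := mem_omZ.1 hj1
      refine ⟨q', hq', (leC_iff hM ht hr hq2 rfl).1 hle, j2, ?_⟩
      show ZFSet.pair (ZFSet.pair (natZ i) (natZ j2)) (cd q') ∈ T.1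
      have e1 : ZFSet.pair (natZ i) (natZ j2) = x.1 := by rw [hx, hw1.1.2, hj2]; rfl
      rw [e1, ← hq2]
      exact hT
    · intro i j p hp q hq hle h5
      exact h4 ⟨_, hpairM i j⟩ ⟨cd p, hcM p hp⟩ ⟨cd q, hcM q hq⟩ (hS.mem_iff.2 hp) (hS.mem_iff.2 hq)
        ((leC_iff hM ht hr rfl rfl).2 hle) h5
  · rintro ⟨h1, h2, h3, h4⟩
    refine ⟨?_, ?_, ?_, ?_⟩
    · intro w hw
      obtain ⟨i, j, p, hp, h5⟩ := h1 w.1 hw
      exact ⟨nz hM i, nz hM j, ⟨_, hpairM i j⟩, ⟨cd p, hcM p hp⟩, natZ_mem_omZ _, natZ_mem_omZ _,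
        hS.mem_iff.2 hp, rfl, h5⟩
    · intro i j j' x x' r hr' hx hx' h5 h6
      obtain ⟨r', hr2, hr3⟩ := (hS _).1 hr'
      obtain ⟨i1, j1, p1, hp1, h7⟩ := h1 _ h5
      obtain ⟨i2, j2, p2, hp2, h8⟩ := h1 _ h6
      rw [ZFSet.pair_inj, hx, ZFSet.pair_inj] at h7
      rw [ZFSet.pair_inj, hx', ZFSet.pair_inj] at h8
      have h9 := h2 i1 j1 j2 r' hr2 (by
        show ZFSet.pair (ZFSet.pair (natZ i1) (natZ j1)) (cd r') ∈ T.1
        rw [← h7.1.1, ← h7.1.2, ← hx, ← hr3]; exact h5) (by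
        show ZFSet.pair (ZFSet.pair (natZ i1) (natZ j2)) (cd r') ∈ T.1
        rw [← h7.1.1, ← h8.1.2, ← hx', ← hr3]; exact h6)
      exact Subtype.ext (by rw [h7.1.2, h8.1.2, h9])
    · intro i hi p hp
      obtain ⟨i', hi'⟩ := mem_omZ.1 hi
      obtain ⟨p', hp', hp2⟩ := (hS _).1 hp
      obtain ⟨q, hq, hle, j, h5⟩ := h3 i' p' hp'
      exact ⟨⟨cd q, hcM q hq⟩, nz hM j, ⟨_, hpairM i' j⟩, hS.mem_iff.2 hq, (leC_iff hM ht hr rfl hp2).2 hle,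
        by rw [hi']; rfl, h5⟩
    · intro x p q hp hq hle h5
      obtain ⟨p', hp', hp2⟩ := (hS _).1 hp
      obtain ⟨q', hq', hq2⟩ := (hS _).1 hq
      obtain ⟨i1, j1, p1, hp1, h7⟩ := h1 _ h5
      rw [ZFSet.pair_inj] at h7
      rw [h7.1, hq2]
      refine h4 i1 j1 p' hp' q' hq' ((leC_iff hM ht hr hq2 hp2).1 hle) ?_
      show ZFSet.pair (ZFSet.pair (natZ i1) (natZ j1)) (cd p') ∈ T.1
      rw [← h7.1, ← hp2]; exact h5

theorem pair_mem_rz' {x : ℕ → ℕ} {n : ℕ} {y : ZFSet.{u}} : ZFSet.pair (natZ n) y ∈ H17.GP.rz x ↔ y = natZ (x n) :=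
  pair_mem_seqZ (g := fun n => natZ (x n))

/-- The codes of the template. -/
structure TmC (M : Set ZFSet.{u}) where
  le : M
  len : M
  cap : M
  good : M

/-- The codes of the template `t`. -/
noncomputable def Tm.In.code (hM : CTM M) {t : Tm} (h : t.In M) : TmC M :=
  ⟨⟨_, r2z_mem hM h.le⟩, ⟨_, h.len⟩, ⟨_, h.cap⟩, ⟨_, r3z_mem hM h.good⟩⟩

/-- the value `(m, a)` is admissible below the condition `z` of `S` (in the model) -/
def VdC (hM : CTM M) (k : TmC M) (S z m a : M) : Prop :=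
  (∃ n : M, ZFSet.pair m.1 n.1 ∈ k.cap.1 ∧ CardC a n) ∧ ∀ T : M, T.1 ∈ a.1 → NmC hM k.le S T ∧
    ∀ l : M, ZFSet.pair m.1 l.1 ∈ k.len.1 → ∀ i : M, i.1 ∈ l.1 → ∃ j x : M, x.1 = ZFSet.pair i.1 j.1 ∧
      ZFSet.pair m.1 x.1 ∈ k.good.1 ∧ ZFSet.pair x.1 z.1 ∈ T.1

theorem VdC.dfn (hM : CTM M) (k : TmC M) :
    hM.Dfn (fun v : Fin 4 → M => VdC hM k (v 0) (v 1) (v 2) (v 3)) := by
  have h := NmC.dfn hM
  have h2 := CardC.dfn hM
  unfold VdC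
  refine Dfn.and (Dfn.ex (Dfn.and (by (repeat' first
      | exact DT.var _ | exact DT.last | exact DT.const _ | assumption
      | refine Dfn.pairMem ?_ ?_ ?_ | refine Dfn.isPair ?_ ?_ ?_ | refine Dfn.mem ?_ ?_
      | refine Dfn.eqv ?_ ?_ | refine Dfn.eq ?_ ?_ | refine Dfn.subset ?_ ?_
      | refine Dfn.isEmpty ?_ | refine Dfn.isTrans ?_ | refine Dfn.isOrd ?_ | refine Dfn.isNat ?_
      | refine Dfn.and ?_ ?_ | refine Dfn.or ?_ ?_ | refine Dfn.iff ?_ ?_ | refine Dfn.not ?_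
      | refine Dfn.imp ?_ ?_ | refine Dfn.all ?_ | refine Dfn.ex ?_ | exact Dfn.false')) (Dfn.subst2 h2 (DT.var _) (DT.var _))))
    (Dfn.all (Dfn.imp (by (repeat' first
        | exact DT.var _ | exact DT.last | exact DT.const _ | assumption
        | refine Dfn.pairMem ?_ ?_ ?_ | refine Dfn.isPair ?_ ?_ ?_ | refine Dfn.mem ?_ ?_
        | refine Dfn.eqv ?_ ?_ | refine Dfn.eq ?_ ?_ | refine Dfn.subset ?_ ?_
        | refine Dfn.isEmpty ?_ | refine Dfn.isTrans ?_ | refine Dfn.isOrd ?_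
        | refine Dfn.isNat ?_ | refine Dfn.and ?_ ?_ | refine Dfn.or ?_ ?_ | refine Dfn.iff ?_ ?_
        | refine Dfn.not ?_ | refine Dfn.imp ?_ ?_ | refine Dfn.all ?_ | refine Dfn.ex ?_
        | exact Dfn.false')) (Dfn.and (Dfn.subst3 h (DT.const _) (DT.var _) (DT.var _)) (by (repeat' first
        | exact DT.var _ | exact DT.last | exact DT.const _ | assumption
        | refine Dfn.pairMem ?_ ?_ ?_ | refine Dfn.isPair ?_ ?_ ?_ | refine Dfn.mem ?_ ?_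
        | refine Dfn.eqv ?_ ?_ | refine Dfn.eq ?_ ?_ | refine Dfn.subset ?_ ?_
        | refine Dfn.isEmpty ?_ | refine Dfn.isTrans ?_ | refine Dfn.isOrd ?_
        | refine Dfn.isNat ?_ | refine Dfn.and ?_ ?_ | refine Dfn.or ?_ ?_ | refine Dfn.iff ?_ ?_
        | refine Dfn.not ?_ | refine Dfn.imp ?_ ?_ | refine Dfn.all ?_ | refine Dfn.ex ?_
        | exact Dfn.false')))))

theorem vdC_iff (hM : CTM M) {t : Tm} (ht : t.Ax) (hk : t.In M) {S z m a : M} {SC : Set Cn.{u}}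
    (hS : IsCode S.1 SC) {p : Cn.{u}} (hz : z.1 = cd p) {n : ℕ} {s : Finset ZFSet.{u}} (hm : m.1 = natZ n)
    (ha : a.1 = fs s) : VdC hM (Tm.In.code hM hk) S z m a ↔ Vd t M SC p (n, s) := by
  have e : m = nz hM n := Subtype.ext hm
  subst e
  have hsM : ∀ T ∈ s, T ∈ M := fun T hT => hM.mem_of_mem a.2 (by rw [ha]; exact mem_fs.2 hT)
  constructor
  · rintro ⟨⟨c, hc, h1⟩, h2⟩
    have hc : ZFSet.pair (natZ n) c.1 ∈ H17.GP.rz t.cap := hc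
    have hc2 : c.1 = natZ (t.cap n) := pair_mem_rz'.1 hc
    refine ⟨(cardC_iff hM ha hc2).1 h1, fun T hT => ?_⟩
    obtain ⟨h3, h4⟩ := h2 ⟨T, hsM T hT⟩ (by rw [ha]; exact mem_fs.2 hT)
    refine ⟨hsM T hT, (nmC_iff hM ht rfl hS).1 h3, fun i hi => ?_⟩
    obtain ⟨j, x, hx, hg, hT2⟩ := h4 (nz hM (t.len n)) (pair_mem_seqZ.2 rfl) (nz hM i) (natZ_mem.2 hi)
    have hg : ZFSet.pair (natZ n) x.1 ∈ r3z t.good := hg
    obtain ⟨a1, b1, d1, hg1, hg2⟩ := mem_r3z.1 hg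
    rw [hx, ZFSet.pair_inj, ZFSet.pair_inj, natZ_inj] at hg2
    have hi' : (natZ.{u} i) = natZ b1 := hg2.2.1
    rw [natZ_inj] at hi'
    refine ⟨d1, ?_, ?_⟩
    · rw [hg2.1, hi']; exact hg1
    · show ZFSet.pair (ZFSet.pair (natZ i) (natZ d1)) (cd p) ∈ T
      rw [← hz]
      have : ZFSet.pair (natZ i) (natZ d1) = x.1 := by rw [hx, hg2.2.2]; rfl
      rw [this]; exact hT2
  · rintro ⟨h1, h2⟩
    refine ⟨⟨nz hM (t.cap n), pair_mem_seqZ.2 rfl, (cardC_iff hM ha rfl).2 h1⟩, fun T hT => ?_⟩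
    rw [ha] at hT
    obtain ⟨_, h3, h4⟩ := h2 T.1 (mem_fs.1 hT)
    refine ⟨(nmC_iff hM ht rfl hS).2 h3, fun l hl i hi => ?_⟩
    have hl : l.1 = natZ (t.len n) := pair_mem_rz'.1 hl
    rw [hl] at hi
    obtain ⟨i', hi', hi2⟩ := mem_natZ.1 hi
    obtain ⟨j, hg, hT2⟩ := h4 i' hi'
    refine ⟨nz hM j, ⟨ZFSet.pair (natZ i') (natZ j), hM.pair_mem (hM.natZ_mem_N _) (hM.natZ_mem_N _)⟩, ?_, ?_, ?_⟩
    · rw [hi2]; rfl
    · exact pair_mem_r3z.2 hg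
    · rw [hz]; exact hT2

/-! ### The recursion -/

/-- The recursive definition of the set of codes of the conditions of length `x`. -/
def RecP (hM : CTM M) (k : TmC M) (x : M) (rel : M → M → Prop) (v : M) : Prop :=
  ∀ z : M, z.1 ∈ v.1 ↔ (IsC hM z ∧ ∀ η d m a : M, ZFSet.pair η.1 d.1 ∈ z.1 → d.1 = ZFSet.pair m.1 a.1 →
    η.1 ∈ x.1 ∧ ∃ S z' : M, rel η S ∧ ResC z η z' ∧ VdC hM k S z' m a)

theorem recDfn (hM : CTM M) {C : M → Prop} (hC : hM.Dfn (fun v : Fin 1 → M => C (v 0))) {Rs : M → M → M → Prop}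
    (hRs : hM.Dfn (fun v : Fin 3 → M => Rs (v 0) (v 1) (v 2))) {V : M → M → M → M → Prop}
    (hV : hM.Dfn (fun v : Fin 4 → M => V (v 0) (v 1) (v 2) (v 3))) :
    hM.Dfn (fun v : Fin 3 → M => ∀ z : M, z.1 ∈ (v 2).1 ↔ (C z ∧ ∀ η d m a : M, ZFSet.pair η.1 d.1 ∈ z.1 →
      d.1 = ZFSet.pair m.1 a.1 → η.1 ∈ (v 0).1 ∧ ∃ S z' : M, (η.1 ∈ (v 0).1 ∧ ZFSet.pair η.1 S.1 ∈ (v 1).1) ∧
        Rs z η z' ∧ V S z' m a)) := by
  (repeat' first
      | exact DT.var _ | exact DT.last | exact DT.const _ | assumption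
      | refine Dfn.pairMem ?_ ?_ ?_ | refine Dfn.isPair ?_ ?_ ?_ | refine Dfn.mem ?_ ?_
      | refine Dfn.eqv ?_ ?_ | refine Dfn.eq ?_ ?_ | refine Dfn.subset ?_ ?_
      | refine Dfn.isEmpty ?_ | refine Dfn.isTrans ?_ | refine Dfn.isOrd ?_ | refine Dfn.isNat ?_
      | refine Dfn.and ?_ ?_ | refine Dfn.or ?_ ?_ | refine Dfn.iff ?_ ?_ | refine Dfn.not ?_
      | refine Dfn.imp ?_ ?_ | refine Dfn.all ?_ | refine Dfn.ex ?_ | exact Dfn.false')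
  · exact Dfn.subst1 hC (DT.var _)
  · exact Dfn.subst3 hRs (DT.var _) (DT.var _) (DT.var _)
  · exact Dfn.subst4 hV (DT.var _) (DT.var _) (DT.var _) (DT.var _)

theorem sepDfn (hM : CTM M) {C : M → Prop} (hC : hM.Dfn (fun v : Fin 1 → M => C (v 0))) {Rs : M → M → M → Prop}
    (hRs : hM.Dfn (fun v : Fin 3 → M => Rs (v 0) (v 1) (v 2))) {V : M → M → M → M → Prop}
    (hV : hM.Dfn (fun v : Fin 4 → M => V (v 0) (v 1) (v 2) (v 3))) (x h : M) :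
    hM.Dfn (fun v : Fin 1 → M => (C (v 0) ∧ ∀ η d m a : M, ZFSet.pair η.1 d.1 ∈ (v 0).1 →
      d.1 = ZFSet.pair m.1 a.1 → η.1 ∈ x.1 ∧ ∃ S z' : M, (η.1 ∈ x.1 ∧ ZFSet.pair η.1 S.1 ∈ h.1) ∧
        Rs (v 0) η z' ∧ V S z' m a)) := by
  (repeat' first
      | exact DT.var _ | exact DT.last | exact DT.const _ | assumption
      | refine Dfn.pairMem ?_ ?_ ?_ | refine Dfn.isPair ?_ ?_ ?_ | refine Dfn.mem ?_ ?_
      | refine Dfn.eqv ?_ ?_ | refine Dfn.eq ?_ ?_ | refine Dfn.subset ?_ ?_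
      | refine Dfn.isEmpty ?_ | refine Dfn.isTrans ?_ | refine Dfn.isOrd ?_ | refine Dfn.isNat ?_
      | refine Dfn.and ?_ ?_ | refine Dfn.or ?_ ?_ | refine Dfn.iff ?_ ?_ | refine Dfn.not ?_
      | refine Dfn.imp ?_ ?_ | refine Dfn.all ?_ | refine Dfn.ex ?_ | exact Dfn.false')
  · exact Dfn.subst3 hRs (DT.var _) (DT.var _) (DT.var _)
  · exact Dfn.subst4 hV (DT.var _) (DT.var _) (DT.var _) (DT.var _)

/-- The sets of codes of the conditions form a definable sequence of elements of the model. -/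
theorem exists_PF (hM : CTM M) {t : Tm} (ht : t.Ax) (hk : t.In M) : ∃ F : M → M,
    hM.Dfn (fun v : Fin 2 → M => F (v 0) = v 1) ∧ ∀ ξ : Ordinal.{u}, ∀ x : M, x.1 = ξ.toZFSet →
      IsCode (F x).1 (SS t M ξ) := by
  have hC := IsC.dfn hM
  have hRes := ResC.dfn hM
  have hV := VdC.dfn hM (Tm.In.code hM hk)
  obtain ⟨F, hF, hF'⟩ := recursion (hN := hM) (R := fun x y : M => x.1 ∈ y.1)
    (𝒢 := RecP hM (Tm.In.code hM hk)) (by (repeat' first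
        | exact DT.var _ | exact DT.last | exact DT.const _ | assumption
        | refine Dfn.pairMem ?_ ?_ ?_ | refine Dfn.isPair ?_ ?_ ?_ | refine Dfn.mem ?_ ?_
        | refine Dfn.eqv ?_ ?_ | refine Dfn.eq ?_ ?_ | refine Dfn.subset ?_ ?_
        | refine Dfn.isEmpty ?_ | refine Dfn.isTrans ?_ | refine Dfn.isOrd ?_
        | refine Dfn.isNat ?_ | refine Dfn.and ?_ ?_ | refine Dfn.or ?_ ?_ | refine Dfn.iff ?_ ?_
        | refine Dfn.not ?_ | refine Dfn.imp ?_ ?_ | refine Dfn.all ?_ | refine Dfn.ex ?_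
        | exact Dfn.false')) (recDfn hM hC hRes hV)
    (fun x => ⟨x.1, x.2, fun y => Iff.rfl⟩) mem_membership_wf (by
      intro x r v v' h1 h2
      exact Subtype.ext (hM.ext' v.2 v'.2 fun z => (h1 z).trans (h2 z).symm)) (by
      intro x h _ _
      -- a bound
      have hU := hM.sUnion_mem (hM.sUnion_mem (hM.sUnion_mem h.2))
      obtain ⟨W, hW, hW'⟩ := hM.exists_pow (hM.prod_mem (hM.prod_mem hM.omZ_mem hM.omZ_mem) hU)
      obtain ⟨W2, hW2, hW2'⟩ := hM.exists_pow hW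
      obtain ⟨W3, hW3, hW3'⟩ := hM.exists_pow (hM.prod_mem x.2 (hM.prod_mem hM.omZ_mem hW2))
      obtain ⟨v, hv, hv'⟩ := hM.exists_sep (P := fun z => IsC hM z ∧ ∀ η d m a : M,
        ZFSet.pair η.1 d.1 ∈ z.1 → d.1 = ZFSet.pair m.1 a.1 → η.1 ∈ x.1 ∧ ∃ S z' : M,
          (η.1 ∈ x.1 ∧ ZFSet.pair η.1 S.1 ∈ h.1) ∧ ResC z η z' ∧ VdC hM (Tm.In.code hM hk) S z' m a)
        (sepDfn hM hC hRes hV x h) hW3
      refine ⟨⟨v, hv⟩, fun z => ?_⟩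
      show z.1 ∈ v ↔ _
      rw [hv']
      constructor
      · rintro ⟨_, _, h3⟩; exact h3
      · intro h3
        refine ⟨(hW3' _).2 ⟨z.2, fun w hw => ?_⟩, z.2, h3⟩
        obtain ⟨η, d, m, a, e1, e2, h4, h5, h6, h7⟩ := h3.1.2.1 ⟨w, hM.mem_of_mem z.2 hw⟩ hw
        have e1 : w = ZFSet.pair η.1 d.1 := e1
        obtain ⟨h8, S, z', h9, h10, h11⟩ := h3.2 η d m a (by rw [← e1]; exact hw) e2
        rw [e1, e2, ZFSet.pair_mem_prod, ZFSet.pair_mem_prod]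
        refine ⟨h8, h5, (hW2' _).2 ⟨a.2, fun T hT => ?_⟩⟩
        have hTM := hM.mem_of_mem a.2 hT
        refine (hW' _).2 ⟨hTM, fun y hy => ?_⟩
        obtain ⟨i, j, x', p, hi, hj, hp, hx', hy'⟩ := (h11.2 ⟨T, hTM⟩ hT).1.1 ⟨y, hM.mem_of_mem hTM hy⟩ hy
        have hy' : y = ZFSet.pair x'.1 p.1 := hy'
        rw [hy', hx', ZFSet.pair_mem_prod, ZFSet.pair_mem_prod]
        refine ⟨⟨hi, hj⟩, ?_⟩
        rw [ZFSet.mem_sUnion]
        exact ⟨S.1, (mem_sUnion_sUnion_pair h9.2).2, hp⟩)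
  have hF2 : ∀ x, RecP hM (Tm.In.code hM hk) x (fun y w => y.1 ∈ x.1 ∧ F y = w) (F x) := hF'
  refine ⟨F, hF, fun ξ => ?_⟩
  induction ξ using WellFoundedLT.induction with
  | ind ξ ih =>
  intro x hx
  intro z
  have hord : ∀ η < ξ, η.toZFSet ∈ M := fun η hη => hM.mem_of_mem x.2 (by
    rw [hx]; exact Ordinal.toZFSet_mem_toZFSet_iff.2 hη)
  constructor
  · intro hz
    have hzM := hM.mem_of_mem (F x).2 hz
    obtain ⟨h1, h2⟩ := (hF2 x ⟨z, hzM⟩).1 hz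
    obtain ⟨p, hp⟩ := (isC_iff hM).1 h1
    have hp : z = cd p := hp
    refine ⟨p, mem_SS.2 fun η hη => ?_, hp⟩
    have h3 : ZFSet.pair η.toZFSet (ZFSet.pair (natZ (p.f η).1) (fs (p.f η).2)) ∈ z := by
      rw [hp]; exact pair_mem_cd.2 ⟨hη, rfl⟩
    have m1 := hM.of_pair_mem (hM.mem_of_mem hzM h3)
    have m2 := hM.of_pair_mem m1.2
    obtain ⟨h4, S, z', ⟨_, rfl⟩, h6, h7⟩ := h2 ⟨_, m1.1⟩ ⟨_, m1.2⟩ ⟨_, m2.1⟩ ⟨_, m2.2⟩ h3 rfl
    rw [hx] at h4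
    have hlt : η < ξ := Ordinal.toZFSet_mem_toZFSet_iff.1 h4
    have h8 := (resC_iff hM hp rfl).1 h6
    exact ⟨hlt, (vdC_iff hM ht hk (ih η hlt _ rfl) h8 rfl rfl).1 h7⟩
  · rintro ⟨p, hp, rfl⟩
    rw [mem_SS] at hp
    have hcd : cd p ∈ M := by
      refine cd_mem_of hM (fun η hη => hord η (hp η hη).1) ?_
      intro η T hT
      have hη : p.f η ≠ (0, ∅) := by
        intro h0
        rw [h0] at hT
        exact absurd hT (Finset.notMem_empty _)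
      exact ((hp η hη).2.2 T hT).1
    refine (hF2 x ⟨cd p, hcd⟩).2 ⟨(isC_iff hM).2 ⟨p, rfl⟩, fun η d m a h1 h2 => ?_⟩
    obtain ⟨ζ, h3, h4⟩ := mem_cd.1 h1
    rw [h2, ZFSet.pair_inj, ZFSet.pair_inj] at h4
    obtain ⟨h5, h6⟩ := hp ζ h3
    refine ⟨by rw [hx, h4.1]; exact Ordinal.toZFSet_mem_toZFSet_iff.2 h5, F η, ?_⟩
    have hres : cd (p.res ζ) ∈ M := by
      refine cd_mem_of hM ?_ ?_
      · intro θ hθ
        refine (of_cd_mem hM hcd).1 θ ?_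
        intro h0
        apply hθ
        simp only [Cn.res]
        split_ifs
        · exact h0
        · rfl
      · intro θ T hT
        refine (of_cd_mem hM hcd).2 θ T ?_
        simp only [Cn.res] at hT
        split_ifs at hT
        · exact hT
        · exact absurd hT (Finset.notMem_empty _)
    refine ⟨⟨_, hres⟩, ⟨?_, rfl⟩, ?_, ?_⟩
    · rw [hx, h4.1]; exact Ordinal.toZFSet_mem_toZFSet_iff.2 h5
    · exact (resC_iff hM rfl h4.1).2 rfl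
    · exact (vdC_iff hM ht hk (ih ζ h5 η h4.1) rfl h4.2.1 h4.2.2).2 h6

end Pool.Agent.H52.GP
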