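import Pool.Agent.H52.GP.Clo
import Pool.Agent.H83.GP.Slal

/-!
# MP_66e4cf_lc: the partial orders `P_α`, `α < ω₁`, are countable unions of pieces with large linked parts
-/

set_option autoImplicit false
set_option linter.unusedVariables false
set_option linter.unusedSectionVars false

universe u

open Pool.Agent.H17.Omega Pool.Agent.H17.Omega.CTM Pool.Agent.H52.GX Pool.Agent.H52.GC Pool.Agent.H83.GP

namespace Pool.Agent.H52.GP

variable {M : Set ZFSet.{u}}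

theorem exists_pcs (hM : CTM M) {t : Tm} (ht : t.Ax) (hk : t.In M) {δ : Ordinal.{u}} (hδ : IsOm1 M δ)
    {α : Ordinal.{u}} (hα : α < δ) : ∃ Sn : M → M → Prop, Pcs hM (PZ t M α) (RZ t M α) Sn := by
  classical
  have hδM := hδ.mem
  have hαM := hM.toZFSet_mem_of_le hα.le hδM
  obtain ⟨Fi, hFi, hFi'⟩ := exists_fin hM (hM.prod_mem hαM hM.omZ_mem)
  obtain ⟨f, hf, hf'⟩ : Ctb M Fi :=
    Ctb.fin hM (Ctb.prod hM (hδ.ctb α hα) (ctb_om hM)) (fun y hy => (hFi' y).1 hy)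
  have key : ∀ (n : ℕ) (z : M) (p : Cn.{u}), z.1 = cd p →
      ((∃ τ : M, ZFSet.pair (nz hM n).1 τ.1 ∈ (⟨_, hf⟩ : M).1 ∧ ScC z τ) ↔ f n = sc p) := by
    intro n z p hz
    constructor
    · rintro ⟨τ, h1, h2⟩
      have h3 : τ.1 = f n := pair_mem_seqZ.1 h1
      rw [← h3]; exact (scC_iff hM hz).1 h2
    · intro h
      refine ⟨⟨_, hM.seqZ_val hf n⟩, pair_mem_seqZ.2 rfl, (scC_iff hM hz).2 h⟩
  refine ⟨fun n z => ∃ τ : M, ZFSet.pair n.1 τ.1 ∈ (⟨_, hf⟩ : M).1 ∧ ScC z τ, ?_, ?_, ?_⟩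
  · exact Dfn.ex (Dfn.and (Dfn.pairMem (DT.var _) (DT.var _) (DT.const _))
      (Dfn.subst2 (ScC.dfn hM) (DT.var _) (DT.var _)))
  · intro z hz
    obtain ⟨p, hp, hpz⟩ := (mem_PZ hM ht hk hαM).1 hz
    obtain ⟨n, hn⟩ := hf' (sc p) ((hFi' _).2 ⟨sc_subset hp, finZ_sc _⟩)
    exact ⟨n, (key n z p hpz).2 hn⟩
  · intro n
    by_cases hn : ∃ p0 ∈ SS t M α, f n = sc p0
    · obtain ⟨p0, hp0, hn0⟩ := hn
      refine ⟨2 ^ {η | (p0.f η).1 ≠ 0}.ncard, fun p I hI => ?_⟩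
      have hex : ∀ i : ℕ, ∃ q : Cn.{u}, i ∈ I → q ∈ SS t M α ∧ (p i).1 = cd q ∧ f n = sc q := by
        intro i
        by_cases hi : i ∈ I
        · obtain ⟨h1, h2⟩ := hI i hi
          obtain ⟨q, hq, hqz⟩ := (mem_PZ hM ht hk hαM).1 h1
          exact ⟨q, fun _ => ⟨hq, hqz, (key n (p i) q hqz).1 h2⟩⟩
        · exact ⟨Cn.one, fun h => (hi h).elim⟩
      choose q hq using hex
      have hst : ∀ i ∈ I, ∀ η, ((q i).f η).1 = (p0.f η).1 := fun i hi η =>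
        stem_eq_of_sc ht (hq i hi).1 hp0 ((hq i hi).2.2.symm.trans hn0) η
      obtain ⟨J, hJ, hJc, r, hr, hrq⟩ := AP ht {η | (p0.f η).1 ≠ 0}.ncard α q I (fun i hi => (hq i hi).1)
        (fun i hi j hj η => (hst i hi η).trans (hst j hj η).symm) (by
          intro i hi
          have : {η | ((q i).f η).1 ≠ 0} = {η | (p0.f η).1 ≠ 0} := by
            ext η
            show ((q i).f η).1 ≠ 0 ↔ (p0.f η).1 ≠ 0
            rw [hst i hi η]
          rw [this])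
      refine ⟨J, hJ, hJc, cd r, (cd_mem_PZ hM ht hk hαM).2 hr, fun i hi => ?_⟩
      rw [(hq i (hJ hi)).2.1]
      exact (pair_mem_RZ hM ht hk hαM).2 ⟨hr, (hq i (hJ hi)).1, hrq i hi⟩
    · refine ⟨0, fun p I hI => ?_⟩
      have hI0 : I = ∅ := by
        by_contra h
        obtain ⟨i, hi⟩ := Finset.nonempty_iff_ne_empty.2 h
        obtain ⟨h1, h2⟩ := hI i hi
        obtain ⟨q, hq, hqz⟩ := (mem_PZ hM ht hk hαM).1 h1
        exact hn ⟨q, hq, (key n (p i) q hqz).1 h2⟩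
      subst hI0
      exact ⟨∅, subset_rfl, by simp, cd Cn.one, (cd_mem_PZ hM ht hk hαM).2 one_mem_SS, fun i hi =>
        absurd hi (Finset.notMem_empty i)⟩

end Pool.Agent.H52.GP
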