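import Pool.Agent.H52.GP.Api
import Pool.Agent.H17.Omega.CtmD

/-!
# MP_66e4cf_lc: the intermediate models
-/

set_option autoImplicit false
set_option linter.unusedVariables false
set_option linter.unusedSectionVars false
set_option linter.unusedSimpArgs false
set_option linter.unreachableTactic false
set_option linter.unusedTactic false

universe u

open Pool.Agent.H17.Omega Pool.Agent.H17.Omega.CTM Pool.Agent.H52.GX Pool.Agent.H52.GC Pool.Agent.H83.GP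

namespace Pool.Agent.H52.GP

variable {M : Set ZFSet.{u}}

/-- the restriction of a filter -/
def Gr (t : Tm) (M : Set ZFSet.{u}) (G : Set Cn.{u}) (ξ : Ordinal.{u}) : Set Cn.{u} := {p | p ∈ G ∧ p ∈ SS t M ξ}

/-- the intermediate model `M[G ∩ P_ξ]` -/
noncomputable def KK (t : Tm) (M : Set ZFSet.{u}) (G : Set Cn.{u}) (ξ : Ordinal.{u}) : Set ZFSet.{u} :=
  ExtZ M (cd '' Gr t M G ξ)

section

variable (hM : CTM M) {t : Tm} (ht : t.Ax) (hk : t.In M) {δ : Ordinal.{u}} (hδ : δ.toZFSet ∈ M) {G : Set Cn.{u}}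
  (hG : Gn t M δ G)

include hM ht hk hδ hG

theorem res_mem_G {p : Cn.{u}} (hp : p ∈ G) {ξ : Ordinal.{u}} (h : ξ ≤ δ) : p.res ξ ∈ Gr t M G ξ := by
  have h1 := res_mem_SS (η := ξ) (hG.sub p hp)
  exact ⟨hG.up p hp _ (SS_mono h h1) (Cn.le_res ht p ξ), h1⟩

theorem gn_Gr {ξ : Ordinal.{u}} (h : ξ ≤ δ) : Gn t M ξ (Gr t M G ξ) where
  sub := fun p hp => hp.2
  ne := by
    obtain ⟨p, hp⟩ := hG.ne
    exact ⟨_, res_mem_G hM ht hk hδ hG hp h⟩
  up := fun p hp q hq hle => ⟨hG.up p hp.1 q (SS_mono h hq) hle, hq⟩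
  dir := by
    intro p hp q hq
    obtain ⟨r, hr, h1, h2⟩ := hG.dir p hp.1 q hq.1
    refine ⟨r.res ξ, res_mem_G hM ht hk hδ hG hr h, ?_, ?_⟩
    · have := h1.res ht ξ
      rwa [res_of_SS hp.2] at this
    · have := h2.res ht ξ
      rwa [res_of_SS hq.2] at this
  gen := by
    intro D hD hd
    have hξ : ξ.toZFSet ∈ M := hM.toZFSet_mem_of_le h hδ
    have hR := ResC.dfn hM
    obtain ⟨X, hX, hX'⟩ := exists_X hM ht hk hδ (D := fun p => cd (p.res ξ) ∈ D)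
      (Dz := fun z => ∃ z' : M, ResC z ⟨_, hξ⟩ z' ∧ z'.1 ∈ (⟨D, hD⟩ : M).1)
      (Dfn.ex (Dfn.and (Dfn.subst3 hR (DT.var _) (DT.const _) (DT.var _)) (by (repeat' first
          | exact DT.var _ | exact DT.last | exact DT.const _ | assumption
          | refine Dfn.pairMem ?_ ?_ ?_ | refine Dfn.isPair ?_ ?_ ?_ | refine Dfn.mem ?_ ?_
          | refine Dfn.eqv ?_ ?_ | refine Dfn.eq ?_ ?_ | refine Dfn.subset ?_ ?_
          | refine Dfn.isEmpty ?_ | refine Dfn.isTrans ?_ | refine Dfn.isOrd ?_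
          | refine Dfn.isNat ?_ | refine Dfn.and ?_ ?_ | refine Dfn.or ?_ ?_
          | refine Dfn.iff ?_ ?_ | refine Dfn.not ?_ | refine Dfn.imp ?_ ?_ | refine Dfn.all ?_
          | refine Dfn.ex ?_ | exact Dfn.false')))) (by
        intro p hp z hz
        constructor
        · rintro ⟨z', h1, h2⟩
          rw [← (resC_iff hM hz rfl).1 h1]; exact h2
        · intro h1
          exact ⟨⟨_, hM.mem_of_mem hD h1⟩, (resC_iff hM hz rfl).2 rfl, h1⟩)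
    obtain ⟨p, hp, hpX⟩ := hG.gen X hX (by
      intro p hp
      obtain ⟨q, hq, h1, h2⟩ := hd _ (res_mem_SS hp)
      have h3 := cat_mem_SS ht hq h hp h1
      refine ⟨q.cat ξ p, h3, Cn.le_cat_right ht h1, (hX' _ h3).2 ?_⟩
      rw [Cn.cat_res_le le_rfl, res_of_SS hq]; exact h2)
    exact ⟨p.res ξ, res_mem_G hM ht hk hδ hG hp h, (hX' p (hG.sub p hp)).1 hpX⟩

theorem fr_Gr {ξ : Ordinal.{u}} (h : ξ ≤ δ) : Fr M (PZ t M ξ) (RZ t M ξ) (cd '' Gr t M G ξ) :=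
  fr_of_gn hM ht hk (hM.toZFSet_mem_of_le h hδ) (gn_Gr hM ht hk hδ hG h)

theorem ctm_KK {ξ : Ordinal.{u}} (h : ξ ≤ δ) : CTM (KK t M G ξ) := (fr_Gr hM ht hk hδ hG h).ctm

theorem sub_KK {ξ : Ordinal.{u}} (h : ξ ≤ δ) : M ⊆ KK t M G ξ := (fr_Gr hM ht hk hδ hG h).sub

theorem Gr_self : Gr t M G δ = G := by
  ext p
  exact ⟨fun h => h.1, fun h => ⟨h, hG.sub p h⟩⟩

theorem KK_mono {ξ η : Ordinal.{u}} (h : ξ ≤ η) (h' : η ≤ δ) : KK t M G ξ ⊆ KK t M G η := by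
  have hη := fr_Gr hM ht hk hδ hG h'
  have hξ := fr_Gr hM ht hk hδ hG (h.trans h')
  have hN := hη.ctm
  obtain ⟨γ, hγ, hγ'⟩ := hη.mem_g
  have hPξ : PZ t M ξ ∈ ExtZ M (cd '' Gr t M G η) := hη.sub hξ.hP
  obtain ⟨γ', hγ2, hγ3⟩ := hN.exists_sep (P := fun z : ExtZ M (cd '' Gr t M G η) =>
    z.1 ∈ (⟨_, hPξ⟩ : ExtZ M (cd '' Gr t M G η)).1) (by (repeat' first
        | exact DT.var _ | exact DT.last | exact DT.const _ | assumption
        | refine Dfn.pairMem ?_ ?_ ?_ | refine Dfn.isPair ?_ ?_ ?_ | refine Dfn.mem ?_ ?_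
        | refine Dfn.eqv ?_ ?_ | refine Dfn.eq ?_ ?_ | refine Dfn.subset ?_ ?_
        | refine Dfn.isEmpty ?_ | refine Dfn.isTrans ?_ | refine Dfn.isOrd ?_
        | refine Dfn.isNat ?_ | refine Dfn.and ?_ ?_ | refine Dfn.or ?_ ?_ | refine Dfn.iff ?_ ?_
        | refine Dfn.not ?_ | refine Dfn.imp ?_ ?_ | refine Dfn.all ?_ | refine Dfn.ex ?_
        | exact Dfn.false')) hγ
  refine hξ.min hN hη.sub hγ2 (fun z => ?_)
  rw [hγ3, hγ']
  have hξM := hM.toZFSet_mem_of_le (h.trans h') hδ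
  constructor
  · rintro ⟨⟨p, hp, rfl⟩, _, h1⟩
    exact ⟨p, ⟨hp.1, (cd_mem_PZ hM ht hk hξM).1 h1⟩, rfl⟩
  · rintro ⟨p, hp, rfl⟩
    refine ⟨⟨p, ⟨hp.1, SS_mono h hp.2⟩, rfl⟩, ?_, (cd_mem_PZ hM ht hk hξM).2 hp.2⟩
    exact hη.sub (cd_mem_M hM ht hk hξM hp.2)

/-- the trivial extension -/
theorem KK_zero : KK t M G 0 = M := by
  refine Set.Subset.antisymm ?_ (sub_KK hM ht hk hδ hG (zero_le))
  have h0 := fr_Gr hM ht hk hδ hG (zero_le (a := δ))
  have hS : ∀ p : Cn.{u}, p ∈ SS t M 0 ↔ p = Cn.one := by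
    intro p
    constructor
    · intro hp
      apply Cn.ext'
      intro x
      exact SS_ge hp not_lt_zero
    · rintro rfl; exact one_mem_SS
  have h1 : cd (Cn.one : Cn.{u}) ∈ M := cd_mem_M hM ht hk (hM.toZFSet_mem_of_le zero_le hδ) (one_mem_SS (ξ := 0))
  refine h0.min hM le_rfl (hM.singleton_mem h1) (fun z => ?_)
  rw [ZFSet.mem_singleton]
  constructor
  · rintro rfl
    obtain ⟨p, hp⟩ := (gn_Gr hM ht hk hδ hG (zero_le (a := δ))).ne
    exact ⟨p, hp, by rw [(hS p).1 hp.2]⟩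
  · rintro ⟨p, hp, rfl⟩
    rw [(hS p).1 hp.2]

/-- The characteristic function of the filter of stems at `ξ`. -/
theorem gs_char {ξ : Ordinal.{u}} (h : ξ < δ) [DecidablePred (fun m => m ∈ gs t G ξ)] :
    (fun m => if m ∈ gs t G ξ then 0 else 1) ∈ Pool.Agent.H17.GP.Rl (ExtZ M (cd '' G)) := by
  have hf := fr_of_gn hM ht hk hδ hG
  have hN := hf.ctm
  obtain ⟨γ, hγ, hγ'⟩ := hf.mem_g
  have hξ : ξ.toZFSet ∈ ExtZ M (cd '' G) := hf.sub (hM.toZFSet_mem_of_le h.le hδ)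
  have hle : r2z t.le ∈ ExtZ M (cd '' G) := hf.sub (r2z_mem hM hk.le)
  have hSt := StC.dfn hN
  obtain ⟨Q, hQ, hQ'⟩ : ∃ Q : ExtZ M (cd '' G) → Prop, hN.Dfn (fun v : Fin 1 → ExtZ M (cd '' G) => Q (v 0)) ∧
      ∀ x, Q x ↔ ∃ z m : ExtZ M (cd '' G), z.1 ∈ (⟨γ, hγ⟩ : ExtZ M (cd '' G)).1 ∧ StC z ⟨_, hξ⟩ m ∧
        ZFSet.pair m.1 x.1 ∈ (⟨_, hle⟩ : ExtZ M (cd '' G)).1 := by
    refine ⟨_, ?_, fun _ => Iff.rfl⟩
    exact Dfn.ex (Dfn.ex (Dfn.and (by (repeat' first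
        | exact DT.var _ | exact DT.last | exact DT.const _ | assumption
        | refine Dfn.pairMem ?_ ?_ ?_ | refine Dfn.isPair ?_ ?_ ?_ | refine Dfn.mem ?_ ?_
        | refine Dfn.eqv ?_ ?_ | refine Dfn.eq ?_ ?_ | refine Dfn.subset ?_ ?_
        | refine Dfn.isEmpty ?_ | refine Dfn.isTrans ?_ | refine Dfn.isOrd ?_
        | refine Dfn.isNat ?_ | refine Dfn.and ?_ ?_ | refine Dfn.or ?_ ?_ | refine Dfn.iff ?_ ?_
        | refine Dfn.not ?_ | refine Dfn.imp ?_ ?_ | refine Dfn.all ?_ | refine Dfn.ex ?_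
        | exact Dfn.false')) (Dfn.and (Dfn.subst3 hSt (DT.var _) (DT.const _) (DT.var _)) (by (repeat' first
        | exact DT.var _ | exact DT.last | exact DT.const _ | assumption
        | refine Dfn.pairMem ?_ ?_ ?_ | refine Dfn.isPair ?_ ?_ ?_ | refine Dfn.mem ?_ ?_
        | refine Dfn.eqv ?_ ?_ | refine Dfn.eq ?_ ?_ | refine Dfn.subset ?_ ?_
        | refine Dfn.isEmpty ?_ | refine Dfn.isTrans ?_ | refine Dfn.isOrd ?_
        | refine Dfn.isNat ?_ | refine Dfn.and ?_ ?_ | refine Dfn.or ?_ ?_ | refine Dfn.iff ?_ ?_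
        | refine Dfn.not ?_ | refine Dfn.imp ?_ ?_ | refine Dfn.all ?_ | refine Dfn.ex ?_
        | exact Dfn.false')))))
  have key : ∀ (m : ℕ), m ∈ gs t G ξ ↔ Q (nz hN m) := by
    intro m
    rw [hQ']
    constructor
    · rintro ⟨p, hp, h1⟩
      have h2 : cd p ∈ γ := (hγ' _).2 ⟨p, hp, rfl⟩
      exact ⟨⟨cd p, hN.mem_of_mem hγ h2⟩, nz hN (p.f ξ).1, h2, (stC_iff hN rfl rfl).2 rfl, pair_mem_r2z.2 h1⟩
    · rintro ⟨z, k, h1, h2, h3⟩
      obtain ⟨p, hp, hpz⟩ := (hγ' _).1 h1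
      have h3 : ZFSet.pair k.1 (natZ m) ∈ r2z t.le := h3
      rw [(stC_iff hN hpz.symm rfl).1 h2, pair_mem_r2z] at h3
      exact ⟨p, hp, h3⟩
  show seqZ (fun m => natZ (if m ∈ gs t G ξ then 0 else 1)) ∈ ExtZ M (cd '' G)
  refine seqZ_mem_of_dfn hN (F := fun n y => (Q n ∧ y = nz hN 0) ∨ (¬ Q n ∧ y = nz hN 1)) ?_ ?_
    (fun n => hN.natZ_mem_N _)
  · (repeat' first
        | exact DT.var _ | exact DT.last | exact DT.const _ | assumption
        | refine Dfn.pairMem ?_ ?_ ?_ | refine Dfn.isPair ?_ ?_ ?_ | refine Dfn.mem ?_ ?_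
        | refine Dfn.eqv ?_ ?_ | refine Dfn.eq ?_ ?_ | refine Dfn.subset ?_ ?_
        | refine Dfn.isEmpty ?_ | refine Dfn.isTrans ?_ | refine Dfn.isOrd ?_
        | refine Dfn.isNat ?_ | refine Dfn.and ?_ ?_ | refine Dfn.or ?_ ?_ | refine Dfn.iff ?_ ?_
        | refine Dfn.not ?_ | refine Dfn.imp ?_ ?_ | refine Dfn.all ?_ | refine Dfn.ex ?_
        | exact Dfn.false')
    all_goals exact Dfn.subst1 hQ (DT.var _)
  · intro n y
    rw [← key]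
    by_cases h1 : n ∈ gs t G ξ
    · simp only [h1, if_true, true_and, not_true, false_and, or_false]
      exact ⟨fun h => by rw [h]; rfl, fun h => Subtype.ext h⟩
    · simp only [h1, if_false, true_and, not_false_iff, false_and, false_or]
      exact ⟨fun h => by rw [h]; rfl, fun h => Subtype.ext h⟩

end

end Pool.Agent.H52.GP
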