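import Pool.Agent.H52.GX.SeqName
import Pool.Agent.H52.GC.Fin

/-!
# MP_66e4cf_lc: the generic extension theorem in terms of sets of codes
-/

set_option autoImplicit false
set_option linter.unusedVariables false
set_option linter.unusedSectionVars false
set_option linter.unusedSimpArgs false

universe u

open Pool.Agent.H17.Omega Pool.Agent.H17.Omega.CTM Pool.Agent.H52.GX Pool.Agent.H52.GC

namespace Pool.Agent.H52.GP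

/-- the value of the name `τ` with respect to a set `g` of codes of conditions -/
noncomputable def evZ (g : Set ZFSet.{u}) (τ : ZFSet.{u}) : ZFSet.{u} :=
  ZFSet.range (fun i : Shrink.{u} {z : {z : ZFSet.{u} // z ∈ τ} // ∃ σ p, z.1 = ZFSet.pair σ p ∧ p ∈ g} =>
    evZ g (((equivShrink _).symm i).2.choose))
termination_by τ.rank
decreasing_by
  have h := ((equivShrink _).symm i).2.choose_spec.choose_spec
  have h2 := ((equivShrink _).symm i).1.2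
  rw [h.1] at h2
  exact rank_fst_lt h2

/-- the extension `M[g]` -/
def ExtZ (M g : Set ZFSet.{u}) : Set ZFSet.{u} := evZ g '' M

/-- `P`, `R` is a partial order (`R` is the set of the pairs `(p, q)` with `p ≤ q`) -/
structure PO (P R : ZFSet.{u}) : Prop where
  rel : ∀ z ∈ R, ∃ a ∈ P, ∃ b ∈ P, z = ZFSet.pair a b
  refl : ∀ a ∈ P, ZFSet.pair a a ∈ R
  trans : ∀ a b d, ZFSet.pair a b ∈ R → ZFSet.pair b d ∈ R → ZFSet.pair a d ∈ R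
  anti : ∀ a b, ZFSet.pair a b ∈ R → ZFSet.pair b a ∈ R → a = b

/-- `g` is a filter of `P`, `R` that meets every dense set in `M` -/
structure GenZ (M : Set ZFSet.{u}) (P R : ZFSet.{u}) (g : Set ZFSet.{u}) : Prop where
  sub : ∀ p ∈ g, p ∈ P
  ne : g.Nonempty
  up : ∀ p ∈ g, ∀ q, ZFSet.pair p q ∈ R → q ∈ g
  dir : ∀ p ∈ g, ∀ q ∈ g, ∃ r ∈ g, ZFSet.pair r p ∈ R ∧ ZFSet.pair r q ∈ R
  gen : ∀ D ∈ M, (∀ p ∈ P, ∃ q ∈ D, ZFSet.pair q p ∈ R) → ∃ p ∈ g, p ∈ D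

theorem mem_evZ {g : Set ZFSet.{u}} {τ z : ZFSet.{u}} :
    z ∈ evZ g τ ↔ ∃ σ p, ZFSet.pair σ p ∈ τ ∧ p ∈ g ∧ z = evZ g σ := by
  rw [evZ, ZFSet.mem_range]
  constructor
  · rintro ⟨i, rfl⟩
    have h := ((equivShrink _).symm i).2.choose_spec.choose_spec
    have h2 := ((equivShrink _).symm i).1.2
    rw [h.1] at h2
    exact ⟨_, _, h2, h.2, rfl⟩
  · rintro ⟨σ, p, h1, h2, rfl⟩
    let x : {z : {z : ZFSet.{u} // z ∈ τ} // ∃ σ p, z.1 = ZFSet.pair σ p ∧ p ∈ g} :=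
      ⟨⟨ZFSet.pair σ p, h1⟩, σ, p, rfl, h2⟩
    refine ⟨equivShrink _ x, ?_⟩
    have e : (equivShrink {z : {z : ZFSet.{u} // z ∈ τ} // ∃ σ p, z.1 = ZFSet.pair σ p ∧ p ∈ g}).symm
        (equivShrink _ x) = x := Equiv.symm_apply_apply _ _
    have key : ∀ y : {z : {z : ZFSet.{u} // z ∈ τ} // ∃ σ p, z.1 = ZFSet.pair σ p ∧ p ∈ g}, y = x →
        y.2.choose = σ := by
      rintro y rfl
      have h := x.2.choose_spec.choose_spec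
      exact (ZFSet.pair_inj.1 h.1).1.symm
    rw [key _ e]

theorem evZ_eq {Q : Type u} (c : Q → ZFSet.{u}) {G : Set Q} {g : Set ZFSet.{u}}
    (hg : ∀ z, z ∈ g ↔ ∃ q ∈ G, z = c q) : ∀ τ, evZ g τ = ev c G τ := by
  intro τ
  have key : ∀ (o : Ordinal.{u}) (τ : ZFSet.{u}), τ.rank = o → evZ g τ = ev c G τ := by
    intro o
    induction o using WellFoundedLT.induction with
    | ind o ih =>
    intro τ ho
    ext z
    rw [mem_evZ, mem_ev]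
    constructor
    · rintro ⟨σ, p, h1, h2, rfl⟩
      obtain ⟨q, hq, rfl⟩ := (hg p).1 h2
      exact ⟨σ, q, h1, hq, (ih _ (by rw [← ho]; exact rank_fst_lt h1) σ rfl).symm⟩
    · rintro ⟨σ, q, h1, hq, rfl⟩
      exact ⟨σ, c q, h1, (hg _).2 ⟨q, hq, rfl⟩, (ih _ (by rw [← ho]; exact rank_fst_lt h1) σ rfl).symm⟩
  exact key _ τ rfl

theorem ExtZ_eq {Q : Type u} (c : Q → ZFSet.{u}) {G : Set Q} {g : Set ZFSet.{u}}
    (hg : ∀ z, z ∈ g ↔ ∃ q ∈ G, z = c q) (M : Set ZFSet.{u}) : ExtZ M g = GX.Ext M c G := by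
  have : evZ g = ev c G := funext (evZ_eq c hg)
  rw [ExtZ, GX.Ext, this]

/-- A partial order of `M` with a generic filter. -/
structure Fr (M : Set ZFSet.{u}) (P R : ZFSet.{u}) (g : Set ZFSet.{u}) : Prop where
  hM : CTM M
  hP : P ∈ M
  hR : R ∈ M
  po : PO P R
  gen : GenZ M P R g

/-- A name of a sequence of elements of `A`. -/
structure SeqNmZ (P R A ν : ZFSet.{u}) : Prop where
  mem : ∀ z ∈ ν, ∃ (n : ℕ) (a p : ZFSet.{u}), a ∈ A ∧ p ∈ P ∧ z = ZFSet.pair (ZFSet.pair (natZ n) a) p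
  uni : ∀ n a a' p p', ZFSet.pair (ZFSet.pair (natZ n) a) p ∈ ν → ZFSet.pair (ZFSet.pair (natZ n) a') p' ∈ ν →
    (∃ r, ZFSet.pair r p ∈ R ∧ ZFSet.pair r p' ∈ R) → a = a'
  tot : ∀ n : ℕ, ∀ p ∈ P, ∃ q, ZFSet.pair q p ∈ R ∧ ∃ a, ZFSet.pair (ZFSet.pair (natZ n) a) q ∈ ν
  down : ∀ n a p q, ZFSet.pair q p ∈ R → ZFSet.pair (ZFSet.pair (natZ n) a) p ∈ ν →
    ZFSet.pair (ZFSet.pair (natZ n) a) q ∈ ν

variable {M : Set ZFSet.{u}} {P R : ZFSet.{u}} {g : Set ZFSet.{u}}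

theorem PO.mem {P R : ZFSet.{u}} (h : PO P R) {a b : ZFSet.{u}} (hab : ZFSet.pair a b ∈ R) : a ∈ P ∧ b ∈ P := by
  obtain ⟨a', ha, b', hb, h1⟩ := h.rel _ hab
  rw [ZFSet.pair_inj] at h1
  rw [h1.1, h1.2]; exact ⟨ha, hb⟩

namespace Fr

theorem exists_Q (h : Fr M P R g) : ∃ (Q : Type u) (_ : PartialOrder Q) (c : Q → ZFSet.{u}) (G : Set Q),
    PosetIn M Q c ∧ GenF M c G ∧ (∀ z, z ∈ P ↔ ∃ q, z = c q) ∧ (∀ p q, p ≤ q ↔ ZFSet.pair (c p) (c q) ∈ R) ∧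
    (∀ z, z ∈ g ↔ ∃ q ∈ G, z = c q) ∧ ExtZ M g = GX.Ext M c G := by
  obtain ⟨Q, inst, c, hQ, hc, hle⟩ := exists_poset h.hP h.hR h.po.rel h.po.refl h.po.trans h.po.anti
  have hg : ∀ z, z ∈ g ↔ ∃ q ∈ {q | c q ∈ g}, z = c q := by
    intro z
    constructor
    · intro hz
      obtain ⟨q, rfl⟩ := (hc z).1 (h.gen.sub z hz)
      exact ⟨q, hz, rfl⟩
    · rintro ⟨q, hq, rfl⟩; exact hq
  refine ⟨Q, inst, c, {q | c q ∈ g}, hQ, ⟨?_, ?_, ?_, ?_⟩, hc, hle, hg, ExtZ_eq c hg M⟩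
  · obtain ⟨z, hz⟩ := h.gen.ne
    obtain ⟨q, hq, _⟩ := (hg z).1 hz
    exact ⟨q, hq⟩
  · intro p hp q hpq
    exact h.gen.up _ hp _ ((hle p q).1 hpq)
  · intro p hp q hq
    obtain ⟨r, hr, h1, h2⟩ := h.gen.dir _ hp _ hq
    obtain ⟨r', hr', rfl⟩ := (hg r).1 hr
    exact ⟨r', hr', (hle _ _).2 h1, (hle _ _).2 h2⟩
  · intro D hD hd
    obtain ⟨p, hp, hpD⟩ := h.gen.gen D hD (by
      intro p hp
      obtain ⟨p', rfl⟩ := (hc p).1 hp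
      obtain ⟨q, hq, hqD⟩ := hd p'
      exact ⟨c q, hqD, (hle _ _).1 hq⟩)
    obtain ⟨p', hp', rfl⟩ := (hg p).1 hp
    exact ⟨p', hp', hpD⟩

theorem ctm (h : Fr M P R g) : CTM (ExtZ M g) := by
  obtain ⟨Q, inst, c, G, hQ, hG, hc, hle, hg, he⟩ := h.exists_Q
  rw [he]; exact ctm_Ext h.hM hQ hG

theorem sub (h : Fr M P R g) : M ⊆ ExtZ M g := by
  obtain ⟨Q, inst, c, G, hQ, hG, hc, hle, hg, he⟩ := h.exists_Q
  rw [he]; exact subset_Ext h.hM hQ hG.ne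

theorem mem_g (h : Fr M P R g) : ∃ γ ∈ ExtZ M g, ∀ z, z ∈ γ ↔ z ∈ g := by
  obtain ⟨Q, inst, c, G, hQ, hG, hc, hle, hg, he⟩ := h.exists_Q
  rw [he]
  obtain ⟨γ, hγ, hγ'⟩ := gset_mem h.hM hQ hG.ne
  exact ⟨γ, hγ, fun z => (hγ' z).trans (hg z).symm⟩

theorem ord (h : Fr M P R g) {o : Ordinal.{u}} : o.toZFSet ∈ ExtZ M g ↔ o.toZFSet ∈ M := by
  obtain ⟨Q, inst, c, G, hQ, hG, hc, hle, hg, he⟩ := h.exists_Q
  rw [he]; exact toZFSet_mem_Ext h.hM hQ hG.ne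

theorem min (h : Fr M P R g) {N : Set ZFSet.{u}} (hN : CTM N) (hMN : M ⊆ N) {γ : ZFSet.{u}} (hγ : γ ∈ N)
    (hγ' : ∀ z, z ∈ γ ↔ z ∈ g) : ExtZ M g ⊆ N := by
  obtain ⟨Q, inst, c, G, hQ, hG, hc, hle, hg, he⟩ := h.exists_Q
  rw [he]
  exact Ext_subset hN hMN hγ (fun z => (hγ' z).trans (hg z)) hQ.inj

/-- A generic filter meets definable classes that are dense below one of its elements. -/
theorem gen_dfn (h : Fr M P R g) {D : M → Prop} (hD : h.hM.Dfn (fun v : Fin 1 → M => D (v 0)))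
    {p : ZFSet.{u}} (hp : p ∈ g) (hd : ∀ r : M, ZFSet.pair r.1 p ∈ R → ∃ q : M, ZFSet.pair q.1 r.1 ∈ R ∧ D q) :
    ∃ q : M, q.1 ∈ g ∧ D q := by
  obtain ⟨Q, inst, c, G, hQ, hG, hc, hle, hg, he⟩ := h.exists_Q
  obtain ⟨p', hp', rfl⟩ := (hg p).1 hp
  obtain ⟨q, hq, hqD⟩ := hG.gen_dfn h.hM hQ hD hp' (by
    intro r hr
    have hrM : c r ∈ M := h.hM.mem_of_mem h.hP ((hc _).2 ⟨r, rfl⟩)
    obtain ⟨q, hq, hqD⟩ := hd ⟨c r, hrM⟩ ((hle _ _).1 hr)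
    obtain ⟨q', hq'⟩ := (hc q.1).1 (h.po.mem hq).1
    refine ⟨q', (hle _ _).2 (by rw [← hq']; exact hq), fun z hz => ?_⟩
    have : z = q := Subtype.ext (hz.trans hq'.symm)
    rw [this]; exact hqD)
  exact ⟨⟨c q, h.hM.mem_of_mem h.hP ((hc _).2 ⟨q, rfl⟩)⟩, (hg _).2 ⟨q, hq, rfl⟩, hqD _ rfl⟩

/-- Sequences of the extension have names. -/
theorem exists_seqNm (h : Fr M P R g) {A : ZFSet.{u}} (hA : A ∈ M) {s : ℕ → ZFSet.{u}} (hs : ∀ n, s n ∈ A)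
    (hS : seqZ s ∈ ExtZ M g) : ∃ ν ∈ M, SeqNmZ P R A ν ∧
      ∀ n a, a = s n ↔ ∃ p ∈ g, ZFSet.pair (ZFSet.pair (natZ n) a) p ∈ ν := by
  obtain ⟨Q, inst, c, G, hQ, hG, hc, hle, hg, he⟩ := h.exists_Q
  rw [he] at hS
  obtain ⟨ν, hν, h1, h2⟩ := GX.exists_seqNm h.hM hQ hG hA hs hS
  refine ⟨ν, hν, ⟨?_, ?_, ?_, ?_⟩, ?_⟩
  · intro z hz
    obtain ⟨n, a, p, ha, rfl⟩ := h1.mem z hz
    exact ⟨n, a, c p, ha, (hc _).2 ⟨p, rfl⟩, rfl⟩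
  · rintro n a a' p p' h3 h4 ⟨r, hr, hr'⟩
    obtain ⟨p1, rfl⟩ := (hc p).1 (h.po.mem hr).2
    obtain ⟨p2, rfl⟩ := (hc p').1 (h.po.mem hr').2
    obtain ⟨r1, rfl⟩ := (hc r).1 (h.po.mem hr).1
    exact h1.uni n a a' p1 p2 h3 h4 ⟨r1, (hle _ _).2 hr, (hle _ _).2 hr'⟩
  · intro n p hp
    obtain ⟨p1, rfl⟩ := (hc p).1 hp
    obtain ⟨q, hq, a, ha⟩ := h1.tot n p1
    exact ⟨c q, (hle _ _).1 hq, a, ha⟩
  · intro n a p q hq h3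
    obtain ⟨p1, rfl⟩ := (hc p).1 (h.po.mem hq).2
    obtain ⟨q1, rfl⟩ := (hc q).1 (h.po.mem hq).1
    exact h1.down n a p1 q1 ((hle _ _).2 hq) h3
  · intro n a
    rw [h2]
    constructor
    · rintro ⟨p, hp, h3⟩; exact ⟨c p, (hg _).2 ⟨p, hp, rfl⟩, h3⟩
    · rintro ⟨p, hp, h3⟩
      obtain ⟨p1, hp1, rfl⟩ := (hg p).1 hp
      exact ⟨p1, hp1, h3⟩

/-- The value of a name of a sequence. -/
theorem seqNm_value (h : Fr M P R g) {A ν : ZFSet.{u}} (hA : A ∈ M) (hν : ν ∈ M) (hn : SeqNmZ P R A ν) :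
    ∃ s : ℕ → ZFSet.{u}, (∀ n, s n ∈ A) ∧ seqZ s ∈ ExtZ M g ∧
      ∀ n a, a = s n ↔ ∃ p ∈ g, ZFSet.pair (ZFSet.pair (natZ n) a) p ∈ ν := by
  obtain ⟨Q, inst, c, G, hQ, hG, hc, hle, hg, he⟩ := h.exists_Q
  obtain ⟨s, h1, h2, h3⟩ := GX.seqNm_value h.hM hQ hG hA hν (⟨by
      intro z hz
      obtain ⟨n, a, p, ha, hp, rfl⟩ := hn.mem z hz
      obtain ⟨p1, rfl⟩ := (hc p).1 hp
      exact ⟨n, a, p1, ha, rfl⟩, by
      rintro n a a' p p' h3 h4 ⟨r, hr, hr'⟩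
      exact hn.uni n a a' _ _ h3 h4 ⟨c r, (hle _ _).1 hr, (hle _ _).1 hr'⟩, by
      intro n p
      obtain ⟨q, hq, a, ha⟩ := hn.tot n (c p) ((hc _).2 ⟨p, rfl⟩)
      obtain ⟨q1, rfl⟩ := (hc q).1 (h.po.mem hq).1
      exact ⟨q1, (hle _ _).2 hq, a, ha⟩, by
      intro n a p q hq h3
      exact hn.down n a _ _ ((hle _ _).1 hq) h3⟩ : SeqNm c A ν)
  refine ⟨s, h1, by rw [he]; exact h2, fun n a => ?_⟩
  rw [h3]
  constructor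
  · rintro ⟨p, hp, h3⟩; exact ⟨c p, (hg _).2 ⟨p, hp, rfl⟩, h3⟩
  · rintro ⟨p, hp, h3⟩
    obtain ⟨p1, hp1, rfl⟩ := (hg p).1 hp
    exact ⟨p1, hp1, h3⟩

end Fr

end Pool.Agent.H52.GP
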